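import Pool.Agent.R815.SD.LLN

/-!
# The clock
-/

namespace Pool.Agent.R815.SD

open Finset intervalIntegral MeasureTheory

/-- Partial sums of the Poisson weights -/
noncomputable def GG (q : ℕ) (s : ℝ) : ℝ := ∑ j ∈ range q, po s j

/-- vacant seats per school at clock time `s` -/
noncomputable def RR (q : ℕ) (s : ℝ) : ℝ := ∑ k ∈ range q, GG (k + 1) s

lemma hasDerivAt_GG (q : ℕ) (s : ℝ) : HasDerivAt (GG (q + 1)) (-po s q) s := by
  induction q with
  | zero =>
    have h := hasDerivAt_po s 0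
    have e : GG (0 + 1) = fun t => po t 0 := by
      funext t; simp [GG]
    rw [e]
    simpa [prev] using h
  | succ q ih =>
    have e : GG (q + 1 + 1) = fun t => GG (q + 1) t + po t (q + 1) := by
      funext t; simp [GG, Finset.sum_range_succ]
    rw [e]
    have h := ih.add (hasDerivAt_po s (q + 1))
    have e2 : -po s q + (prev (po s) (q + 1) - po s (q + 1)) = -po s (q + 1) := by
      simp only [prev]
      ring
    rw [e2] at h
    exact h

lemma hasDerivAt_RR (q : ℕ) (s : ℝ) : HasDerivAt (RR q) (-GG q s) s := by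
  have h : HasDerivAt (fun t => ∑ k ∈ range q, GG (k + 1) t) (∑ k ∈ range q, -po s k) s :=
    HasDerivAt.fun_sum fun k _ => hasDerivAt_GG k s
  rw [Finset.sum_neg_distrib] at h
  exact h

lemma GG_zero (q : ℕ) : GG (q + 1) 0 = 1 := by
  unfold GG
  rw [Finset.sum_range_succ']
  simp [po]

lemma RR_zero (q : ℕ) : RR q 0 = q := by
  unfold RR
  simp [GG_zero]

lemma continuous_po (j : ℕ) : Continuous fun s => po s j := by
  unfold po; fun_prop

lemma continuous_GG (q : ℕ) : Continuous (GG q) := by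
  unfold GG
  exact continuous_finsetSum _ fun j _ => continuous_po j

lemma continuous_Fq (q : ℕ) : Continuous (Fq q) := by
  unfold Fq
  exact continuous_const.sub (continuous_finsetSum _ fun j _ => continuous_po j)

lemma integral_GG (q : ℕ) (s : ℝ) : ∫ v in (0 : ℝ)..s, GG q v = q - RR q s := by
  have h := integral_eq_sub_of_hasDerivAt (f := fun t => -RR q t) (f' := GG q) (a := 0) (b := s)
    (fun x _ => by
      have h := (hasDerivAt_RR q x).neg
      rw [neg_neg] at h
      exact h)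
    ((continuous_GG q).intervalIntegrable 0 s)
  rw [h, RR_zero]
  ring

lemma Fq_eq (q : ℕ) (s : ℝ) : Fq q s = 1 - GG q s := rfl

lemma Fq_mono {q : ℕ} {s t : ℝ} (hs : 0 ≤ s) (hst : s ≤ t) : Fq q s ≤ Fq q t := by
  cases q with
  | zero => simp [Fq]
  | succ q =>
    have h : AntitoneOn (GG (q + 1)) (Set.Ici 0) := by
      apply antitoneOn_of_deriv_nonpos (convex_Ici 0) (continuous_GG _).continuousOn
      · intro x _
        exact (hasDerivAt_GG q x).differentiableAt.differentiableWithinAt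
      · intro x hx
        rw [(hasDerivAt_GG q x).deriv]
        rw [interior_Ici] at hx
        have := po_nonneg (le_of_lt (Set.mem_Ioi.mp hx)) q
        linarith
    have := h (Set.mem_Ici.mpr hs) (Set.mem_Ici.mpr (hs.trans hst)) hst
    rw [Fq_eq, Fq_eq]
    linarith

lemma Fq_lip {q : ℕ} {s t : ℝ} (hs : 0 ≤ s) (ht : 0 ≤ t) : |Fq q s - Fq q t| ≤ |s - t| := by
  cases q with
  | zero => simp [Fq]
  | succ q =>
    have h := (convex_Ici (0 : ℝ)).norm_image_sub_le_of_norm_hasDerivWithin_le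
      (f := GG (q + 1)) (f' := fun s => -po s q) (C := 1) (x := t) (y := s)
      (fun x _ => (hasDerivAt_GG q x).hasDerivWithinAt) (fun x hx => by
        have h2 := po_nonneg hx q
        have h3 := po_le_one hx q
        rw [Real.norm_eq_abs, abs_le]
        constructor <;> linarith) ht hs
    simp only [Real.norm_eq_abs, one_mul] at h
    rw [Fq_eq, Fq_eq]
    have e : 1 - GG (q + 1) s - (1 - GG (q + 1) t) = -(GG (q + 1) s - GG (q + 1) t) := by ring
    rw [e, abs_neg]
    exact h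

/-- speed of the clock -/
noncomputable def sp (d q : ℕ) (s : ℝ) : ℝ := gs d (Fq q s)

lemma continuous_gs (d : ℕ) : Continuous (gs d) := by
  unfold gs
  exact continuous_finsetSum _ fun j _ => continuous_pow j

lemma continuous_sp (d q : ℕ) : Continuous (sp d q) :=
  (continuous_gs d).comp (continuous_Fq q)

lemma one_le_sp {d : ℕ} (hd : 0 < d) (q : ℕ) {s : ℝ} (hs : 0 ≤ s) : 1 ≤ sp d q s :=
  one_le_gs hd (Fq_nonneg hs q)

lemma sp_mono {d q : ℕ} {s t : ℝ} (hs : 0 ≤ s) (hst : s ≤ t) : sp d q s ≤ sp d q t :=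
  gs_mono (Fq_nonneg hs q) (Fq_mono hs hst)

/-- real time as a function of the clock time -/
noncomputable def tau (d q : ℕ) (s : ℝ) : ℝ := ∫ v in (0 : ℝ)..s, 1 / sp d q v

lemma intInt {d : ℕ} (hd : 0 < d) (q : ℕ) {a b : ℝ} (ha : 0 ≤ a) (hab : a ≤ b) :
    IntervalIntegrable (fun v => 1 / sp d q v) volume a b := by
  apply ContinuousOn.intervalIntegrable
  apply ContinuousOn.div continuousOn_const (continuous_sp d q).continuousOn
  intro x hx
  rw [Set.uIcc_of_le hab] at hx
  have := one_le_sp hd q (ha.trans hx.1)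
  positivity

lemma tau_add {d : ℕ} (hd : 0 < d) (q : ℕ) {a b : ℝ} (ha : 0 ≤ a) (hab : a ≤ b) :
    tau d q b = tau d q a + ∫ v in a..b, 1 / sp d q v := by
  unfold tau
  rw [intervalIntegral.integral_add_adjacent_intervals (intInt hd q le_rfl ha)
    (intInt hd q ha hab)]

lemma int_le {d : ℕ} (hd : 0 < d) (q : ℕ) {a b : ℝ} (ha : 0 ≤ a) (hab : a ≤ b) :
    ∫ v in a..b, 1 / sp d q v ≤ (b - a) / sp d q a := by
  have h := intervalIntegral.integral_mono_on (f := fun v => 1 / sp d q v)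
    (g := fun _ => 1 / sp d q a) hab (intInt hd q ha hab) intervalIntegrable_const
    (fun x hx => by
      have h1 := one_le_sp hd q ha
      have h2 := sp_mono (d := d) (q := q) ha hx.1
      exact one_div_le_one_div_of_le (by linarith) h2)
  rw [intervalIntegral.integral_const, smul_eq_mul] at h
  refine h.trans (le_of_eq ?_)
  ring

lemma le_int {d : ℕ} (hd : 0 < d) (q : ℕ) {a b : ℝ} (ha : 0 ≤ a) (hab : a ≤ b) :
    (b - a) / sp d q b ≤ ∫ v in a..b, 1 / sp d q v := by
  have h := intervalIntegral.integral_mono_on (g := fun v => 1 / sp d q v)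
    (f := fun _ => 1 / sp d q b) hab intervalIntegrable_const (intInt hd q ha hab)
    (fun x hx => by
      have h1 := one_le_sp hd q (ha.trans hx.1)
      have h2 := sp_mono (d := d) (q := q) (ha.trans hx.1) hx.2
      exact one_div_le_one_div_of_le (by linarith) h2)
  rw [intervalIntegral.integral_const, smul_eq_mul] at h
  refine le_trans (le_of_eq ?_) h
  ring

lemma tau_mono {d : ℕ} (hd : 0 < d) (q : ℕ) {a b : ℝ} (ha : 0 ≤ a) (hab : a ≤ b) :
    tau d q a ≤ tau d q b := by
  rw [tau_add hd q ha hab]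
  have h1 := le_int hd q ha hab
  have h2 := one_le_sp hd q (ha.trans hab)
  have h3 : 0 ≤ (b - a) / sp d q b := by
    apply div_nonneg <;> linarith
  linarith

lemma tau_nonneg {d : ℕ} (hd : 0 < d) (q : ℕ) {a : ℝ} (ha : 0 ≤ a) : 0 ≤ tau d q a := by
  have := tau_mono hd q le_rfl ha
  simpa [tau] using this

lemma sig_succ (d q n i : ℕ) : sig d q n (i + 1) = sig d q n i + sp d q (sig d q n i) / n := rfl

lemma tau_sig_le {d : ℕ} (hd : 0 < d) (q : ℕ) {n : ℕ} (hn : 0 < n) (i : ℕ) :
    tau d q (sig d q n i) ≤ i / n := by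
  have hn' : (0 : ℝ) < n := by exact_mod_cast hn
  induction i with
  | zero => simp [sig, tau]
  | succ i ih =>
    have h0 := sig_nonneg d q n i
    have h1 := one_le_sp hd q h0
    have hle : sig d q n i ≤ sig d q n (i + 1) := by
      rw [sig_succ]
      have : 0 ≤ sp d q (sig d q n i) / n := by positivity
      linarith
    rw [tau_add hd q h0 hle]
    have h2 := int_le hd q h0 hle
    have h3 : (sig d q n (i + 1) - sig d q n i) / sp d q (sig d q n i) = 1 / n := by
      rw [sig_succ]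
      field_simp
      ring
    rw [h3] at h2
    push_cast
    rw [add_div]
    linarith

lemma le_tau_sig {d : ℕ} (hd : 0 < d) (q : ℕ) {n : ℕ} (hn : 0 < n) (i : ℕ) :
    i / ((n : ℝ) + (d : ℝ) ^ 2) ≤ tau d q (sig d q n i) := by
  have hn' : (0 : ℝ) < n := by exact_mod_cast hn
  induction i with
  | zero => simp [sig, tau]
  | succ i ih =>
    have h0 := sig_nonneg d q n i
    have h1 := one_le_sp hd q h0
    have hle : sig d q n i ≤ sig d q n (i + 1) := by
      rw [sig_succ]
      have : 0 ≤ sp d q (sig d q n i) / n := by positivity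
      linarith
    rw [tau_add hd q h0 hle]
    have h2 := le_int hd q h0 hle
    set s := sig d q n i with hs
    set s' := sig d q n (i + 1) with hs'
    have hs'0 : 0 ≤ s' := h0.trans hle
    have hd1 : s' - s = sp d q s / n := by
      rw [hs', sig_succ]
      ring
    have h4 : |sp d q s' - sp d q s| ≤ (d : ℝ) ^ 2 * |s' - s| := by
      have h5 := gs_lip (d := d) (Fq_nonneg hs'0 q) (Fq_le_one hs'0 q) (Fq_nonneg h0 q)
        (Fq_le_one h0 q)
      refine h5.trans ?_
      have := Fq_lip (q := q) hs'0 h0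
      gcongr
    have h6 : sp d q s' ≤ sp d q s * (1 + (d : ℝ) ^ 2 / n) := by
      have h7 := (abs_le.mp h4).2
      rw [abs_of_nonneg (by linarith), hd1] at h7
      have e : sp d q s * (1 + (d : ℝ) ^ 2 / n) = sp d q s + (d : ℝ) ^ 2 * (sp d q s / n) := by
        ring
      rw [e]
      linarith
    have h8 : 1 / ((n : ℝ) + (d : ℝ) ^ 2) ≤ (s' - s) / sp d q s' := by
      rw [hd1]
      have h9 : 0 < sp d q s' := by linarith [one_le_sp hd q hs'0]
      have h10 : 0 < sp d q s := by linarith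
      rw [div_le_div_iff₀ (by positivity) h9]
      calc 1 * sp d q s' ≤ sp d q s * (1 + (d : ℝ) ^ 2 / n) := by linarith
        _ = sp d q s / n * ((n : ℝ) + (d : ℝ) ^ 2) := by field_simp
    push_cast
    rw [add_div]
    linarith

lemma sig_le_of_tau {d : ℕ} (hd : 0 < d) (q : ℕ) {s : ℝ} (hs : 0 ≤ s) (ht : (q : ℝ) < tau d q s)
    {n : ℕ} (hn : 0 < n) {i : ℕ} (hi : i ≤ n * q) : sig d q n i ≤ s := by
  by_contra hcon
  push Not at hcon
  have h1 := tau_mono hd q hs hcon.le
  have h2 := tau_sig_le hd q hn i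
  have hn' : (0 : ℝ) < n := by exact_mod_cast hn
  have h3 : (i : ℝ) / n ≤ q := by
    rw [div_le_iff₀ hn']
    have : (i : ℝ) ≤ n * q := by exact_mod_cast hi
    linarith
  linarith

lemma le_sig_of_tau {d : ℕ} (hd : 0 < d) (q : ℕ) {s : ℝ} (hs : 0 ≤ s) (ht : tau d q s < q) :
    ∃ N : ℕ, ∀ n : ℕ, N ≤ n → 0 < n → s ≤ sig d q n (n * q - 1) := by
  obtain ⟨N, hN⟩ := exists_nat_gt ((tau d q s * (d : ℝ) ^ 2 + 1) / (q - tau d q s))
  refine ⟨N, fun n hNn hn => ?_⟩
  by_contra hcon
  push Not at hcon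
  have hn' : (0 : ℝ) < n := by exact_mod_cast hn
  have h0 := sig_nonneg d q n (n * q - 1)
  have h1 := tau_mono hd q h0 hcon.le
  have h2 := le_tau_sig hd q hn (n * q - 1)
  have hq : 0 < q := by
    rcases Nat.eq_zero_or_pos q with h | h
    · subst h
      have := tau_nonneg hd 0 hs
      simp at ht
      linarith
    · exact h
  have h3 : ((n * q - 1 : ℕ) : ℝ) = n * q - 1 := by
    have : 1 ≤ n * q := Nat.mul_pos hn hq
    push_cast [Nat.cast_sub this]
    ring
  rw [h3] at h2
  have h4 : (n * q - 1) / ((n : ℝ) + (d : ℝ) ^ 2) ≤ tau d q s := h2.trans h1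
  rw [div_le_iff₀ (by positivity)] at h4
  have h5 : (tau d q s * (d : ℝ) ^ 2 + 1) / (q - tau d q s) < n := by
    refine hN.trans_le ?_
    exact_mod_cast hNn
  rw [div_lt_iff₀ (by linarith)] at h5
  nlinarith

/-- Comparison of two list lengths for the last student. -/
theorem compare {d l q : ℕ} (hd : 0 < d) (hl : 0 < l) {s s' : ℝ} (hs : 0 ≤ s)
    (hs' : 0 ≤ s') (h1 : (q : ℝ) < tau d q s) (h2 : tau l q s' < q)
    (h3 : Fq q s ^ d < Fq q s' ^ l) :
    ∃ N : ℕ, ∀ n : ℕ, N ≤ n → 0 < n ∧ d ≤ n ∧ l ≤ n ∧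
      unmatchedProb n d q (n * q - 1) < unmatchedProb n l q (n * q - 1) := by
  obtain ⟨C, hC0, hC⟩ := unmatchedProb_lln d q
  obtain ⟨C', hC'0, hC'⟩ := unmatchedProb_lln l q
  obtain ⟨N, hN⟩ := le_sig_of_tau hl q hs' h2
  set δ := Fq q s' ^ l - Fq q s ^ d with hδ
  have hδ0 : 0 < δ := by linarith
  obtain ⟨M, hM⟩ := exists_nat_gt (((C + C') / δ) ^ 2)
  refine ⟨max (max N M) (max (max d l) 1), fun n hn => ?_⟩
  have hn1 : N ≤ n := (le_max_left _ _).trans ((le_max_left _ _).trans hn)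
  have hn2 : M ≤ n := (le_max_right _ _).trans ((le_max_left _ _).trans hn)
  have hn3 : d ≤ n := (le_max_left _ _).trans ((le_max_left _ _).trans ((le_max_right _ _).trans hn))
  have hn4 : l ≤ n := (le_max_right _ _).trans ((le_max_left _ _).trans
    ((le_max_right _ _).trans hn))
  have hn5 : 0 < n := (le_max_right _ _).trans ((le_max_right _ _).trans hn)
  refine ⟨hn5, hn3, hn4, ?_⟩
  have hn' : (0 : ℝ) < n := by exact_mod_cast hn5
  have hi : n * q - 1 ≤ n * q := Nat.sub_le _ _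
  have a1 := (abs_le.mp (hC n hn5 hn3 _ hi)).2
  have a2 := (abs_le.mp (hC' n hn5 hn4 _ hi)).1
  have b1 : sig d q n (n * q - 1) ≤ s := sig_le_of_tau hd q hs h1 hn5 hi
  have b2 : s' ≤ sig l q n (n * q - 1) := hN n hn1 hn5
  have c1 : Fq q (sig d q n (n * q - 1)) ^ d ≤ Fq q s ^ d := by
    apply pow_le_pow_left₀ (Fq_nonneg (sig_nonneg _ _ _ _) q)
    exact Fq_mono (sig_nonneg _ _ _ _) b1
  have c2 : Fq q s' ^ l ≤ Fq q (sig l q n (n * q - 1)) ^ l := by
    apply pow_le_pow_left₀ (Fq_nonneg hs' q)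
    exact Fq_mono hs' b2
  have hr0 : 0 < Real.sqrt n := Real.sqrt_pos.mpr hn'
  have d1 : (C + C') / Real.sqrt n < δ := by
    rw [div_lt_iff₀ hr0]
    have h5 : ((C + C') / δ) ^ 2 < n := by
      refine hM.trans_le ?_
      exact_mod_cast hn2
    have h6 : (C + C') / δ < Real.sqrt n := Real.lt_sqrt_of_sq_lt h5
    rw [div_lt_iff₀ hδ0] at h6
    linarith
  rw [add_div] at d1
  linarith

/-! ## Riemann sums -/

/-- the increasing part of `1/sp` -/
noncomputable def gg (d : ℕ) (F : ℝ) : ℝ := F ^ d / gs d F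

lemma gg_mono {d : ℕ} (hd : 0 < d) {a b : ℝ} (ha : 0 ≤ a) (hab : a ≤ b) : gg d a ≤ gg d b := by
  unfold gg
  have hb : 0 ≤ b := ha.trans hab
  rw [div_le_div_iff₀ (by linarith [one_le_gs hd ha]) (by linarith [one_le_gs hd hb])]
  unfold gs
  rw [Finset.mul_sum, Finset.mul_sum]
  apply Finset.sum_le_sum
  intro k hk
  have hk' : k < d := Finset.mem_range.mp hk
  have e : d = k + (d - k) := by omega
  have h1 : a ^ (d - k) ≤ b ^ (d - k) := pow_le_pow_left₀ ha hab _
  have e1 : a ^ d = a ^ k * a ^ (d - k) := by rw [← pow_add, ← e]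
  have e2 : b ^ d = b ^ k * b ^ (d - k) := by rw [← pow_add, ← e]
  rw [e1, e2]
  have h2 : 0 ≤ a ^ k * b ^ k := by positivity
  nlinarith [mul_le_mul_of_nonneg_left h1 h2]

lemma one_div_gs {d : ℕ} (hd : 0 < d) {F : ℝ} (h0 : 0 ≤ F) :
    1 / gs d F = (1 - F) + gg d F := by
  have h1 := one_le_gs hd h0
  have h2 : gs d F ≠ 0 := by positivity
  unfold gg
  have h3 : (1 - F) * gs d F = 1 - F ^ d := by
    have := mul_neg_geom_sum F d
    unfold gs
    linarith
  field_simp
  linarith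

lemma continuousOn_gg {d : ℕ} (hd : 0 < d) (q : ℕ) :
    ContinuousOn (fun v => gg d (Fq q v)) (Set.Ici 0) := by
  unfold gg
  apply ContinuousOn.div
  · exact ((continuous_Fq q).pow d).continuousOn
  · exact ((continuous_gs d).comp (continuous_Fq q)).continuousOn
  · intro x hx
    have := one_le_gs hd (Fq_nonneg hx q)
    positivity

lemma tau_eq {d : ℕ} (hd : 0 < d) (q : ℕ) {s : ℝ} (hs : 0 ≤ s) :
    tau d q s = (q - RR q s) + ∫ v in (0 : ℝ)..s, gg d (Fq q v) := by
  unfold tau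
  rw [← integral_GG, ← intervalIntegral.integral_add ((continuous_GG q).intervalIntegrable 0 s)]
  · apply intervalIntegral.integral_congr
    intro v hv
    rw [Set.uIcc_of_le hs] at hv
    simp only [sp]
    rw [one_div_gs hd (Fq_nonneg hv.1 q), Fq_eq]
    ring
  · apply ContinuousOn.intervalIntegrable
    rw [Set.uIcc_of_le hs]
    exact (continuousOn_gg hd q).mono fun x hx => hx.1

lemma mono_scaled {d : ℕ} (hd : 0 < d) (q : ℕ) {h : ℝ} (hh : 0 < h) (m : ℕ) :
    MonotoneOn (fun t : ℝ => gg d (Fq q (h * t))) (Set.Icc (0 : ℝ) (0 + (m : ℝ))) := by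
  intro x hx y hy hxy
  have hx0 : 0 ≤ h * x := mul_nonneg hh.le hx.1
  have hxy' : h * x ≤ h * y := mul_le_mul_of_nonneg_left hxy hh.le
  exact gg_mono hd (Fq_nonneg hx0 q) (Fq_mono hx0 hxy')

lemma integral_scaled {d q : ℕ} {h : ℝ} (m : ℕ) :
    ∫ v in (0 : ℝ)..(h * m), gg d (Fq q v) = h * ∫ t in (0 : ℝ)..(m : ℝ), gg d (Fq q (h * t)) := by
  have := intervalIntegral.mul_integral_comp_mul_left (a := 0) (b := (m : ℝ))
    (f := fun v => gg d (Fq q v)) h
  rw [this, mul_zero]

lemma riemann_left {d : ℕ} (hd : 0 < d) (q : ℕ) {h : ℝ} (hh : 0 < h) (m : ℕ) :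
    h * ∑ k ∈ range m, gg d (Fq q (h * k)) ≤ ∫ v in (0 : ℝ)..(h * m), gg d (Fq q v) := by
  rw [integral_scaled]
  have := MonotoneOn.sum_le_integral (mono_scaled hd q hh m)
  simp only [zero_add] at this
  gcongr

lemma riemann_right {d : ℕ} (hd : 0 < d) (q : ℕ) {h : ℝ} (hh : 0 < h) (m : ℕ) :
    ∫ v in (0 : ℝ)..(h * m), gg d (Fq q v) ≤ h * ∑ k ∈ range m, gg d (Fq q (h * (k + 1 : ℕ))) := by
  rw [integral_scaled]
  have := MonotoneOn.integral_le_sum (mono_scaled hd q hh m)
  simp only [zero_add] at this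
  gcongr

end Pool.Agent.R815.SD
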