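import Pool.Agent.R815.SD.Model

/-!
# Drift of the level counts
-/

namespace Pool.Agent.R815.SD

open Finset

/-- fraction of schools with exactly `j` students -/
noncomputable def lev {n : ℕ} (o : Fin n → ℕ) (j : ℕ) : ℝ :=
  ((univ.filter fun s => o s = j).card : ℝ) / n

/-- previous entry of a sequence, `0` for the first one -/
def prev (x : ℕ → ℝ) : ℕ → ℝ
  | 0 => 0
  | j + 1 => x j

/-- geometric sum -/
noncomputable def gs (d : ℕ) (F : ℝ) : ℝ := ∑ k ∈ range d, F ^ k

/-- drift -/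
noncomputable def drift (d q : ℕ) (x : ℕ → ℝ) (j : ℕ) : ℝ :=
  gs d (1 - ∑ k ∈ range q, x k) * (prev x j - x j)

lemma lev_nonneg {n : ℕ} (o : Fin n → ℕ) (j : ℕ) : 0 ≤ lev o j := by
  unfold lev; positivity

lemma lev_le_one {n : ℕ} (hn : 0 < n) (o : Fin n → ℕ) (j : ℕ) : lev o j ≤ 1 := by
  unfold lev
  have hn' : (0 : ℝ) < n := by exact_mod_cast hn
  rw [div_le_one hn']
  have := Finset.card_filter_le (univ : Finset (Fin n)) (fun s => o s = j)
  rw [Finset.card_univ, Fintype.card_fin] at this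
  exact_mod_cast this

lemma sum_lev {n : ℕ} (o : Fin n → ℕ) (q : ℕ) :
    ∑ k ∈ range q, lev o k = ((univ.filter fun s => o s < q).card : ℝ) / n := by
  unfold lev
  rw [← Finset.sum_div]
  congr 1
  have h : (univ.filter fun s => o s < q).card
      = ∑ k ∈ range q, (univ.filter fun s => o s = k).card := by
    rw [Finset.card_eq_sum_card_fiberwise (f := o) (t := range q)]
    · apply Finset.sum_congr rfl
      intro k hk
      congr 1
      ext s
      simp only [mem_filter, mem_univ, true_and]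
      constructor
      · rintro ⟨_, h⟩; exact h
      · intro h
        exact ⟨by rw [h]; exact Finset.mem_range.mp hk, h⟩
    · intro s hs
      have hs' := (Finset.mem_filter.mp hs).2
      simpa using hs'
  rw [h]
  push_cast
  rfl

lemma fullFrac_eq {n : ℕ} (hn : 0 < n) (q : ℕ) (o : Fin n → ℕ) :
    fullFrac q o = 1 - ∑ k ∈ range q, lev o k := by
  have hn' : (n : ℝ) ≠ 0 := by positivity
  rw [sum_lev]
  unfold fullFrac
  have h := Finset.card_filter_add_card_filter_not (s := (univ : Finset (Fin n)))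
    (fun s => o s < q)
  rw [Finset.card_univ, Fintype.card_fin] at h
  have h' : ((univ.filter (fun s => o s < q)).card : ℝ)
      + ((univ.filter (fun s => ¬ o s < q)).card : ℝ) = n := by
    exact_mod_cast h
  field_simp
  linarith

lemma fullFrac_nonneg {n : ℕ} (q : ℕ) (o : Fin n → ℕ) : 0 ≤ fullFrac q o := by
  unfold fullFrac; positivity

lemma fullFrac_le_one {n : ℕ} (hn : 0 < n) (q : ℕ) (o : Fin n → ℕ) : fullFrac q o ≤ 1 := by
  rw [fullFrac_eq hn]
  have : 0 ≤ ∑ k ∈ range q, lev o k := Finset.sum_nonneg fun _ _ => lev_nonneg _ _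
  linarith

lemma prev_lev_nonneg {n : ℕ} (o : Fin n → ℕ) (j : ℕ) : 0 ≤ prev (lev o) j := by
  cases j with
  | zero => simp [prev]
  | succ j => exact lev_nonneg o j

lemma prev_lev_le_one {n : ℕ} (hn : 0 < n) (o : Fin n → ℕ) (j : ℕ) : prev (lev o) j ≤ 1 := by
  cases j with
  | zero => simp [prev]
  | succ j => exact lev_le_one hn o j

/-- indicator: the chosen school has `j` students before -/
noncomputable def indA {n : ℕ} (o : Fin n → ℕ) (j : ℕ) : Option (Fin n) → ℝ
  | none => 0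
  | some s => if o s = j then 1 else 0

/-- indicator: the chosen school has `j` students afterwards -/
noncomputable def indB {n : ℕ} (o : Fin n → ℕ) (j : ℕ) : Option (Fin n) → ℝ
  | none => 0
  | some s => if o s + 1 = j then 1 else 0

lemma indA_nonneg {n : ℕ} (o : Fin n → ℕ) (j : ℕ) (c : Option (Fin n)) : 0 ≤ indA o j c := by
  cases c with
  | none => simp [indA]
  | some s => simp only [indA]; split_ifs <;> norm_num

lemma indA_le_one {n : ℕ} (o : Fin n → ℕ) (j : ℕ) (c : Option (Fin n)) : indA o j c ≤ 1 := by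
  cases c with
  | none => simp [indA]
  | some s => simp only [indA]; split_ifs <;> norm_num

lemma indB_nonneg {n : ℕ} (o : Fin n → ℕ) (j : ℕ) (c : Option (Fin n)) : 0 ≤ indB o j c := by
  cases c with
  | none => simp [indB]
  | some s => simp only [indB]; split_ifs <;> norm_num

lemma indB_le_one {n : ℕ} (o : Fin n → ℕ) (j : ℕ) (c : Option (Fin n)) : indB o j c ≤ 1 := by
  cases c with
  | none => simp [indB]
  | some s => simp only [indB]; split_ifs <;> norm_num

lemma card_level {n : ℕ} (g : Fin n → ℕ) (j : ℕ) :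
    ((univ.filter fun s => g s = j).card : ℝ) = ∑ s, if g s = j then (1 : ℝ) else 0 := by
  rw [Finset.card_filter]
  push_cast
  rfl

lemma lev_addTo {n : ℕ} (hn : 0 < n) (o : Fin n → ℕ) (j : ℕ) (c : Option (Fin n)) :
    lev (addTo o c) j = lev o j + (indB o j c - indA o j c) / n := by
  have hn' : (n : ℝ) ≠ 0 := by positivity
  cases c with
  | none => simp [addTo, indA, indB]
  | some s =>
    have ha : addTo o (some s) = Function.update o s (o s + 1) := rfl
    rw [ha]
    unfold lev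
    rw [← add_div]
    congr 1
    rw [card_level, card_level]
    simp only [indA, indB]
    rw [← Finset.add_sum_erase _ _ (Finset.mem_univ s),
      ← Finset.add_sum_erase univ (fun t => if o t = j then (1 : ℝ) else 0) (Finset.mem_univ s)]
    have : ∑ x ∈ univ.erase s, (if Function.update o s (o s + 1) x = j then (1 : ℝ) else 0)
        = ∑ x ∈ univ.erase s, (if o x = j then (1 : ℝ) else 0) := by
      apply Finset.sum_congr rfl
      intro x hx
      have hxs : x ≠ s := Finset.ne_of_mem_erase hx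
      rw [Function.update_of_ne hxs]
    rw [this, Function.update_self]
    ring

lemma avgI_indA {n : ℕ} (hn : 0 < n) (d q : ℕ) (o : Fin n → ℕ) (j : ℕ) (hj : j < q) :
    avgI n d q o (indA o j) = gs d (fullFrac q o) * lev o j := by
  rw [avgI_eq hn]
  simp only [indA, mul_zero, add_zero]
  unfold gs lev
  congr 2
  rw [Finset.sum_filter, Finset.card_filter]
  push_cast
  apply Finset.sum_congr rfl
  intro s _
  by_cases h : o s = j
  · have : o s < q := by omega
    simp [h, hj]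
  · simp [h]

lemma avgI_indB {n : ℕ} (hn : 0 < n) (d q : ℕ) (o : Fin n → ℕ) (j : ℕ) (hj : j < q) :
    avgI n d q o (indB o j) = gs d (fullFrac q o) * prev (lev o) j := by
  rw [avgI_eq hn]
  simp only [indB, mul_zero, add_zero]
  unfold gs
  congr 1
  cases j with
  | zero => simp [prev]
  | succ j =>
    simp only [prev, lev]
    congr 1
    rw [Finset.sum_filter, Finset.card_filter]
    push_cast
    apply Finset.sum_congr rfl
    intro s _
    by_cases h : o s = j
    · have : o s < q := by omega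
      simp [h, show j < q by omega]
    · simp [h]

/-- mean of the change of the level count -/
lemma avgE_delta {n d : ℕ} (hn : 0 < n) (h : d ≤ n) (q : ℕ) (o : Fin n → ℕ) (j : ℕ) (hj : j < q) :
    |avgE n d q o (fun c => indB o j c - indA o j c) - drift d q (lev o) j|
      ≤ 2 * (d : ℝ) ^ 2 / n := by
  have h1 := avgE_sub_avgI hn h q o (indA o j) (indA_nonneg o j) (indA_le_one o j)
  have h2 := avgE_sub_avgI hn h q o (indB o j) (indB_nonneg o j) (indB_le_one o j)
  rw [avgI_indA hn d q o j hj] at h1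
  rw [avgI_indB hn d q o j hj] at h2
  rw [avgE_sub]
  unfold drift
  rw [← fullFrac_eq hn]
  rw [abs_le] at h1 h2 ⊢
  have e : 2 * (d : ℝ) ^ 2 / n = (d : ℝ) ^ 2 / n + (d : ℝ) ^ 2 / n := by ring
  rw [e]
  constructor <;> nlinarith [h1.1, h1.2, h2.1, h2.2]

/-! ## real estimates -/

lemma gs_le {d : ℕ} {F : ℝ} (h0 : 0 ≤ F) (h1 : F ≤ 1) : gs d F ≤ d := by
  unfold gs
  calc ∑ k ∈ range d, F ^ k ≤ ∑ k ∈ range d, (1 : ℝ) :=
        Finset.sum_le_sum fun k _ => pow_le_one₀ h0 h1
    _ = d := by simp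

lemma gs_nonneg {d : ℕ} {F : ℝ} (h0 : 0 ≤ F) : 0 ≤ gs d F := by
  unfold gs
  exact Finset.sum_nonneg fun k _ => pow_nonneg h0 k

lemma one_le_gs {d : ℕ} (hd : 0 < d) {F : ℝ} (h0 : 0 ≤ F) : 1 ≤ gs d F := by
  unfold gs
  obtain ⟨e, rfl⟩ : ∃ e, d = e + 1 := ⟨d - 1, by omega⟩
  rw [Finset.sum_range_succ']
  have : 0 ≤ ∑ k ∈ range e, F ^ (k + 1) := Finset.sum_nonneg fun k _ => pow_nonneg h0 _
  simp only [pow_zero]
  linarith

lemma gs_mono {d : ℕ} {F F' : ℝ} (h0 : 0 ≤ F) (h : F ≤ F') : gs d F ≤ gs d F' := by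
  unfold gs
  exact Finset.sum_le_sum fun k _ => pow_le_pow_left₀ h0 h k

lemma pow_lip {k : ℕ} {a b : ℝ} (ha0 : 0 ≤ a) (ha1 : a ≤ 1) (hb0 : 0 ≤ b) (hb1 : b ≤ 1) :
    |a ^ k - b ^ k| ≤ k * |a - b| := by
  induction k with
  | zero => simp
  | succ k ih =>
    have e : a ^ (k + 1) - b ^ (k + 1) = a * (a ^ k - b ^ k) + (a - b) * b ^ k := by ring
    rw [e]
    refine (abs_add_le _ _).trans ?_
    rw [abs_mul, abs_mul, abs_of_nonneg ha0, abs_of_nonneg (pow_nonneg hb0 k)]
    have h1 : a * |a ^ k - b ^ k| ≤ 1 * |a ^ k - b ^ k| :=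
      mul_le_mul_of_nonneg_right ha1 (abs_nonneg _)
    have h2 : |a - b| * b ^ k ≤ |a - b| * 1 :=
      mul_le_mul_of_nonneg_left (pow_le_one₀ hb0 hb1) (abs_nonneg _)
    push_cast
    linarith

lemma gs_lip {d : ℕ} {a b : ℝ} (ha0 : 0 ≤ a) (ha1 : a ≤ 1) (hb0 : 0 ≤ b) (hb1 : b ≤ 1) :
    |gs d a - gs d b| ≤ (d : ℝ) ^ 2 * |a - b| := by
  unfold gs
  rw [← Finset.sum_sub_distrib]
  refine (Finset.abs_sum_le_sum_abs _ _).trans ?_
  have : ∀ k ∈ range d, |a ^ k - b ^ k| ≤ (d : ℝ) * |a - b| := by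
    intro k hk
    refine (pow_lip ha0 ha1 hb0 hb1).trans ?_
    have : (k : ℝ) ≤ d := by exact_mod_cast (Finset.mem_range.mp hk).le
    gcongr
  refine (Finset.sum_le_sum this).trans ?_
  rw [Finset.sum_const, Finset.card_range, nsmul_eq_mul]
  apply le_of_eq
  ring

/-- a sub-probability vector -/
def IsSub (q : ℕ) (x : ℕ → ℝ) : Prop := (∀ j, 0 ≤ x j) ∧ (∀ j, x j ≤ 1) ∧ ∑ k ∈ range q, x k ≤ 1

lemma isSub_lev {n : ℕ} (hn : 0 < n) (q : ℕ) (o : Fin n → ℕ) : IsSub q (lev o) := by
  refine ⟨lev_nonneg o, lev_le_one hn o, ?_⟩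
  have := fullFrac_nonneg q o
  rw [fullFrac_eq hn] at this
  linarith

lemma drift_lip {d q : ℕ} {x y : ℕ → ℝ} (hx : IsSub q x) (hy : IsSub q y) {j : ℕ} (hj : j < q) :
    |drift d q x j - drift d q y j| ≤ (2 * d + (d : ℝ) ^ 2) * ∑ k ∈ range q, |x k - y k| := by
  set S := ∑ k ∈ range q, |x k - y k| with hS
  have hS0 : 0 ≤ S := Finset.sum_nonneg fun _ _ => abs_nonneg _
  have hpt : ∀ k < q, |x k - y k| ≤ S := fun k hk =>
    Finset.single_le_sum (f := fun k => |x k - y k|) (fun _ _ => abs_nonneg _)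
      (Finset.mem_range.mpr hk)
  have hprev : |prev x j - prev y j| ≤ S := by
    cases j with
    | zero => simpa [prev] using hS0
    | succ j => exact hpt j (by omega)
  set Fx := 1 - ∑ k ∈ range q, x k with hFx
  set Fy := 1 - ∑ k ∈ range q, y k with hFy
  have hFx0 : 0 ≤ Fx := by linarith [hx.2.2]
  have hFx1 : Fx ≤ 1 := by
    have : 0 ≤ ∑ k ∈ range q, x k := Finset.sum_nonneg fun _ _ => hx.1 _
    linarith
  have hFy0 : 0 ≤ Fy := by linarith [hy.2.2]
  have hFy1 : Fy ≤ 1 := by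
    have : 0 ≤ ∑ k ∈ range q, y k := Finset.sum_nonneg fun _ _ => hy.1 _
    linarith
  have hFF : |Fx - Fy| ≤ S := by
    have : Fx - Fy = ∑ k ∈ range q, (y k - x k) := by
      rw [Finset.sum_sub_distrib]
      ring
    rw [this]
    refine (Finset.abs_sum_le_sum_abs _ _).trans (le_of_eq ?_)
    apply Finset.sum_congr rfl
    intro k _
    rw [abs_sub_comm]
  have hpy : |prev y j - y j| ≤ 1 := by
    have h1 : 0 ≤ prev y j := by
      cases j with
      | zero => simp [prev]
      | succ j => exact hy.1 j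
    have h2 : prev y j ≤ 1 := by
      cases j with
      | zero => simp [prev]
      | succ j => exact hy.2.1 j
    rw [abs_le]
    constructor <;> linarith [hy.1 j, hy.2.1 j]
  have e : drift d q x j - drift d q y j
      = gs d Fx * ((prev x j - prev y j) - (x j - y j))
        + (gs d Fx - gs d Fy) * (prev y j - y j) := by
    unfold drift
    ring
  rw [e]
  refine (abs_add_le _ _).trans ?_
  rw [abs_mul, abs_mul, abs_of_nonneg (gs_nonneg hFx0)]
  have h1 : |(prev x j - prev y j) - (x j - y j)| ≤ 2 * S := by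
    refine (abs_sub _ _).trans ?_
    linarith [hpt j hj]
  have h2 : gs d Fx * |(prev x j - prev y j) - (x j - y j)| ≤ d * (2 * S) :=
    mul_le_mul (gs_le hFx0 hFx1) h1 (abs_nonneg _) (by positivity)
  have h3 : |gs d Fx - gs d Fy| * |prev y j - y j| ≤ ((d : ℝ) ^ 2 * S) * 1 :=
    mul_le_mul ((gs_lip hFx0 hFx1 hFy0 hFy1).trans (by gcongr)) hpy (abs_nonneg _) (by positivity)
  nlinarith

lemma drift_abs_le {d q : ℕ} {y : ℕ → ℝ} (hy : IsSub q y) (j : ℕ) :
    |drift d q y j| ≤ d := by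
  set Fy := 1 - ∑ k ∈ range q, y k with hFy
  have hFy0 : 0 ≤ Fy := by linarith [hy.2.2]
  have hFy1 : Fy ≤ 1 := by
    have : 0 ≤ ∑ k ∈ range q, y k := Finset.sum_nonneg fun _ _ => hy.1 _
    linarith
  have hpy : |prev y j - y j| ≤ 1 := by
    have h1 : 0 ≤ prev y j := by
      cases j with
      | zero => simp [prev]
      | succ j => exact hy.1 j
    have h2 : prev y j ≤ 1 := by
      cases j with
      | zero => simp [prev]
      | succ j => exact hy.2.1 j
    rw [abs_le]
    constructor <;> linarith [hy.1 j, hy.2.1 j]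
  unfold drift
  rw [abs_mul, abs_of_nonneg (gs_nonneg hFy0)]
  calc gs d Fy * |prev y j - y j| ≤ d * 1 :=
        mul_le_mul (gs_le hFy0 hFy1) hpy (abs_nonneg _) (by positivity)
    _ = d := mul_one _

/-- The squared distance of the level fractions to a target vector. -/
noncomputable def sqd {n : ℕ} (q : ℕ) (y : ℕ → ℝ) (o : Fin n → ℕ) : ℝ :=
  ∑ j ∈ range q, (lev o j - y j) ^ 2

/-- One step of the second moment recursion. -/
lemma sqd_step {n d q : ℕ} (hn : 0 < n) (h : d ≤ n) {y y' : ℕ → ℝ} (hy : IsSub q y) {C : ℝ}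
    (hC : 0 ≤ C)
    (hr : ∀ j < q, |y' j - y j - drift d q y j / n| ≤ C / (n : ℝ) ^ 2) (o : Fin n → ℕ) :
    avgE n d q o (fun c => sqd q y' (addTo o c)) ≤
      (1 + 2 * q * (2 * d + (d : ℝ) ^ 2) / n) * sqd q y o
        + (q * (2 * (2 * (d : ℝ) ^ 2 + C) + (1 + d + C) ^ 2)) / (n : ℝ) ^ 2 := by
  have hn' : (0 : ℝ) < n := by exact_mod_cast hn
  have hn1 : (1 : ℝ) ≤ n := by exact_mod_cast hn
  have hx := isSub_lev hn q o
  set Λ : ℝ := 2 * d + (d : ℝ) ^ 2 with hΛ
  have hΛ0 : 0 ≤ Λ := by positivity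
  set S := ∑ k ∈ range q, |lev o k - y k| with hS
  have hS0 : 0 ≤ S := Finset.sum_nonneg fun _ _ => abs_nonneg _
  have hpt : ∀ j ∈ range q, avgE n d q o (fun c => (lev (addTo o c) j - y' j) ^ 2)
      ≤ (lev o j - y j) ^ 2 + 2 * |lev o j - y j| * (Λ * S) / n
        + (2 * (2 * (d : ℝ) ^ 2 + C) + (1 + d + C) ^ 2) / (n : ℝ) ^ 2 := by
    intro j hj
    have hjq := Finset.mem_range.mp hj
    set u := lev o j - y j with hu
    set w := y' j - y j with hw
    have hu1 : |u| ≤ 1 := by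
      rw [abs_le]
      constructor <;> linarith [hx.1 j, hx.2.1 j, hy.1 j, hy.2.1 j]
    set B : ℝ := 1 + d + C with hB
    have hwb : |w| ≤ (d + C) / n := by
      have h1 := hr j hjq
      have h2 := drift_abs_le (d := d) hy j
      have h3 : |w| ≤ |y' j - y j - drift d q y j / n| + |drift d q y j / n| := by
        have : w = (y' j - y j - drift d q y j / n) + drift d q y j / n := by ring
        rw [this]
        exact abs_add_le _ _
      have h4 : |drift d q y j / n| ≤ d / n := by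
        rw [abs_div, abs_of_pos hn']
        gcongr
      have h5 : C / (n : ℝ) ^ 2 ≤ C / n := by
        apply div_le_div_of_nonneg_left hC hn'
        nlinarith
      rw [add_div]
      linarith
    have hpoint : ∀ c : Option (Fin n), (lev (addTo o c) j - y' j) ^ 2
        ≤ (u ^ 2 - 2 * u * w + B ^ 2 / (n : ℝ) ^ 2) + (2 * u / n) * (indB o j c - indA o j c) := by
      intro c
      rw [lev_addTo hn]
      set δ := indB o j c - indA o j c with hδ
      have hδ1 : |δ| ≤ 1 := by
        rw [abs_le]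
        constructor <;> linarith [indA_nonneg o j c, indA_le_one o j c, indB_nonneg o j c,
          indB_le_one o j c]
      have e1 : lev o j + δ / n - y' j = u + (δ / n - w) := by ring
      rw [e1]
      have h6 : |δ / n - w| ≤ B / n := by
        refine (abs_sub _ _).trans ?_
        have : |δ / n| ≤ 1 / n := by
          rw [abs_div, abs_of_pos hn']
          gcongr
        have e2 : B / n = 1 / n + (d + C) / n := by ring
        rw [e2]
        linarith
      have h7 : (δ / n - w) ^ 2 ≤ B ^ 2 / (n : ℝ) ^ 2 := by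
        rw [← div_pow, ← sq_abs (δ / n - w)]
        gcongr
      have e1' : (u + (δ / n - w)) ^ 2 = u ^ 2 - 2 * u * w + (2 * u / n) * δ + (δ / n - w) ^ 2 := by
        ring
      rw [e1']
      linarith
    refine (avgE_mono q o hpoint).trans ?_
    rw [avgE_add, avgE_const h, avgE_mul]
    set μ := avgE n d q o (fun c => indB o j c - indA o j c) with hμ
    have hμ1 : |μ - drift d q (lev o) j| ≤ 2 * (d : ℝ) ^ 2 / n := avgE_delta hn h q o j hjq
    have hlip := drift_lip (d := d) hx hy hjq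
    have hrj := hr j hjq
    -- 2u(μ/n - w)
    have e3 : u ^ 2 - 2 * u * w + B ^ 2 / (n : ℝ) ^ 2 + 2 * u / n * μ
        = u ^ 2 + B ^ 2 / (n : ℝ) ^ 2 + 2 * (u * (μ / n - w)) := by ring
    rw [e3]
    have h8 : |μ / n - w| ≤ Λ * S / n + (2 * (d : ℝ) ^ 2 + C) / (n : ℝ) ^ 2 := by
      have e4 : μ / n - w = (μ - drift d q (lev o) j) / n
          + (drift d q (lev o) j - drift d q y j) / n
          - (y' j - y j - drift d q y j / n) := by
        rw [hw]; ring
      rw [e4]
      have a1 : |(μ - drift d q (lev o) j) / n| ≤ 2 * (d : ℝ) ^ 2 / (n : ℝ) ^ 2 := by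
        rw [abs_div, abs_of_pos hn']
        calc |μ - drift d q (lev o) j| / n ≤ (2 * (d : ℝ) ^ 2 / n) / n := by gcongr
          _ = 2 * (d : ℝ) ^ 2 / (n : ℝ) ^ 2 := by rw [div_div, ← pow_two]
      have a2 : |(drift d q (lev o) j - drift d q y j) / n| ≤ Λ * S / n := by
        rw [abs_div, abs_of_pos hn']
        gcongr
      have a3 := abs_sub ((μ - drift d q (lev o) j) / n
          + (drift d q (lev o) j - drift d q y j) / n)
          (y' j - y j - drift d q y j / n)
      have a4 := abs_add_le ((μ - drift d q (lev o) j) / n)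
          ((drift d q (lev o) j - drift d q y j) / n)
      have e5 : (2 * (d : ℝ) ^ 2 + C) / (n : ℝ) ^ 2
          = 2 * (d : ℝ) ^ 2 / (n : ℝ) ^ 2 + C / (n : ℝ) ^ 2 := by ring
      rw [e5]
      linarith
    have h9 : u * (μ / n - w) ≤ |u| * (Λ * S / n) + (2 * (d : ℝ) ^ 2 + C) / (n : ℝ) ^ 2 := by
      calc u * (μ / n - w) ≤ |u * (μ / n - w)| := le_abs_self _
        _ = |u| * |μ / n - w| := abs_mul _ _
        _ ≤ |u| * (Λ * S / n + (2 * (d : ℝ) ^ 2 + C) / (n : ℝ) ^ 2) := by gcongr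
        _ = |u| * (Λ * S / n) + |u| * ((2 * (d : ℝ) ^ 2 + C) / (n : ℝ) ^ 2) := by ring
        _ ≤ |u| * (Λ * S / n) + 1 * ((2 * (d : ℝ) ^ 2 + C) / (n : ℝ) ^ 2) := by gcongr
        _ = _ := by ring
    have e6 : (2 * (2 * (d : ℝ) ^ 2 + C) + B ^ 2) / (n : ℝ) ^ 2
        = 2 * ((2 * (d : ℝ) ^ 2 + C) / (n : ℝ) ^ 2) + B ^ 2 / (n : ℝ) ^ 2 := by ring
    rw [e6]
    have e7 : 2 * |u| * (Λ * S) / n = 2 * (|u| * (Λ * S / n)) := by ring
    rw [e7]
    linarith
  unfold sqd
  rw [avgE_sum]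
  refine (Finset.sum_le_sum hpt).trans ?_
  rw [Finset.sum_add_distrib, Finset.sum_add_distrib, Finset.sum_const, Finset.card_range,
    nsmul_eq_mul]
  have hCS : S ^ 2 ≤ q * ∑ j ∈ range q, (lev o j - y j) ^ 2 := by
    have := sq_sum_le_card_mul_sum_sq (s := range q) (f := fun k => |lev o k - y k|)
    simp only [sq_abs, Finset.card_range] at this
    exact this
  have e8 : ∑ j ∈ range q, 2 * |lev o j - y j| * (Λ * S) / n = 2 * Λ / n * S ^ 2 := by
    have : ∀ j ∈ range q, 2 * |lev o j - y j| * (Λ * S) / n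
        = |lev o j - y j| * (2 * Λ * S / n) := fun j _ => by ring
    rw [Finset.sum_congr rfl this, ← Finset.sum_mul, ← hS]
    ring
  rw [e8]
  have h10 : 2 * Λ / n * S ^ 2 ≤ 2 * Λ / n * (q * ∑ j ∈ range q, (lev o j - y j) ^ 2) := by
    gcongr
  have e9 : (1 + 2 * q * Λ / n) * ∑ j ∈ range q, (lev o j - y j) ^ 2
      = ∑ j ∈ range q, (lev o j - y j) ^ 2
        + 2 * Λ / n * (q * ∑ j ∈ range q, (lev o j - y j) ^ 2) := by ring
  rw [e9]
  have e10 : (q : ℝ) * ((2 * (2 * (d : ℝ) ^ 2 + C) + (1 + d + C) ^ 2) / (n : ℝ) ^ 2)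
      = (q * (2 * (2 * (d : ℝ) ^ 2 + C) + (1 + d + C) ^ 2)) / (n : ℝ) ^ 2 := by ring
  rw [e10]
  linarith

end Pool.Agent.R815.SD
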