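import Pool.Agent.R815.SD.NumReal

/-!
# Final assembly: serial dictatorship with 12 seats per school, lists of length 12 and 1000
-/

namespace Pool.Agent.R815.SD

open Finset MeasureTheory ProbabilityTheory

/-- The probability of being matched is one minus the averaged probability of staying
unmatched (last student). -/
lemma matchProb_last {n d : ℕ} (h : d ≤ n) (q k : ℕ) :
    matchProb n d q (k + 1) (Fin.last k) = 1 - unmatchedProb n d q k := by
  classical
  have hc := card_prefList_pos h
  have h1 : unmatchedProb n d q k
      = (∑ L : Fin (k + 1) → PrefList n d,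
          if pick q (occF q k (Fin.init L)) (List.ofFn (L (Fin.last k))) = none then (1 : ℝ) else 0)
        / (Fintype.card (PrefList n d) : ℝ) ^ (k + 1) := by
    unfold unmatchedProb EE avgE
    have e := (Fin.snocEquiv (fun _ : Fin (k + 1) => PrefList n d)).sum_comp
      (fun L : Fin (k + 1) → PrefList n d =>
        if pick q (occF q k (Fin.init L)) (List.ofFn (L (Fin.last k))) = none then (1 : ℝ) else 0)
    rw [← e, Fintype.sum_prod_type_right]
    simp only [Fin.snocEquiv, Equiv.coe_fn_mk, Fin.init_snoc, Fin.snoc_last]
    rw [← Finset.sum_div, div_div, pow_succ']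
  rw [h1]
  unfold matchProb
  have h2 : (Fintype.card (Fin (k + 1) → PrefList n d) : ℝ)
      = (Fintype.card (PrefList n d) : ℝ) ^ (k + 1) := by
    rw [Fintype.card_fun, Fintype.card_fin]
    push_cast
    rfl
  rw [h2]
  have h3 : ((univ.filter fun L : Fin (k + 1) → PrefList n d => Matched q L (Fin.last k)).card : ℝ)
      = (Fintype.card (PrefList n d) : ℝ) ^ (k + 1) - ∑ L : Fin (k + 1) → PrefList n d,
          if pick q (occF q k (Fin.init L)) (List.ofFn (L (Fin.last k))) = none then (1 : ℝ)
          else 0 := by
    rw [Finset.card_filter]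
    push_cast
    have h4 : (Fintype.card (PrefList n d) : ℝ) ^ (k + 1)
        = ∑ L : Fin (k + 1) → PrefList n d, (1 : ℝ) := by
      rw [Finset.sum_const, nsmul_eq_mul, mul_one, Finset.card_univ, h2]
    rw [h4, ← Finset.sum_sub_distrib]
    apply Finset.sum_congr rfl
    intro L _
    by_cases h5 : pick q (occF q k (Fin.init L)) (List.ofFn (L (Fin.last k))) = none
    · rw [if_pos h5, if_neg]
      · norm_num
      · rw [matched_last, h5]
        simp
    · rw [if_neg h5, if_pos]
      · norm_num
      · rw [matched_last]
        exact Option.isSome_iff_ne_none.mpr h5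
  rw [h3]
  have h6 : (Fintype.card (PrefList n d) : ℝ) ^ (k + 1) ≠ 0 := by positivity
  field_simp

lemma matchProb_of_last {n d : ℕ} (h : d ≤ n) (q k : ℕ) {m : ℕ} (hm : m = k + 1) (i : Fin m)
    (hi : (i : ℕ) = k) : matchProb n d q m i = 1 - unmatchedProb n d q k := by
  subst hm
  have : i = Fin.last k := Fin.ext (by simpa using hi)
  rw [this]
  exact matchProb_last h q k

/-- The comparison for the last of the `12 n` students. -/
theorem last_student : ∃ N : ℕ, ∀ n : ℕ, N ≤ n → 1000 ≤ n ∧
    ∀ i : Fin (n * 12), (i : ℕ) + 1 = n * 12 →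
      matchProb n 1000 12 (n * 12) i < matchProb n 12 12 (n * 12) i := by
  obtain ⟨N, hN⟩ := compare (d := 12) (l := 1000) (q := 12) (by norm_num) (by norm_num)
    (Num.nonneg_k 893) (Num.nonneg_k 1307) (by exact_mod_cast Num.tau_low)
    (by exact_mod_cast Num.tau_up) Num.pow_lt
  refine ⟨N, fun n hn => ?_⟩
  obtain ⟨h0, h1, h2, h3⟩ := hN n hn
  refine ⟨h2, fun i hi => ?_⟩
  have hk : (i : ℕ) = n * 12 - 1 := by omega
  have hm : n * 12 = (n * 12 - 1) + 1 := by omega
  rw [matchProb_of_last h2 12 (n * 12 - 1) hm i hk, matchProb_of_last h1 12 (n * 12 - 1) hm i hk]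
  linarith

/-- The discrete σ-algebra on the finite set of lists. -/
instance instMeasurableSpacePrefList (n d : ℕ) : MeasurableSpace (PrefList n d) := ⊤

/-- `matchProb` is the probability of the event that the student is matched, for every family of
independent uniformly distributed lists on any probability space. -/
theorem prob_eq_matchProb {n d q m : ℕ} {Ω : Type} [MeasurableSpace Ω] (μ : Measure Ω)
    [IsProbabilityMeasure μ] (X : Fin m → Ω → PrefList n d) (hX : ∀ k, Measurable (X k))
    (hind : iIndepFun X μ)
    (hunif : ∀ k, ∀ p : PrefList n d,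
      μ (X k ⁻¹' {p}) = ((Fintype.card (PrefList n d) : ENNReal))⁻¹) (i : Fin m) :
    μ {ω | Matched q (fun k => X k ω) i} = ENNReal.ofReal (matchProb n d q m i) := by
  classical
  set S := univ.filter fun L : Fin m → PrefList n d => Matched q L i with hS
  have h1 : {ω | Matched q (fun k => X k ω) i} = ⋃ L ∈ S, ⋂ k ∈ (univ : Finset (Fin m)),
      X k ⁻¹' {L k} := by
    ext ω
    simp only [Set.mem_iUnion, Set.mem_iInter, Set.mem_preimage, Set.mem_singleton_iff,
      Finset.mem_univ, forall_true_left, exists_prop]
    constructor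
    · intro h
      exact ⟨fun k => X k ω, Finset.mem_filter.mpr ⟨Finset.mem_univ _, h⟩, fun k => rfl⟩
    · rintro ⟨L, hL, h⟩
      have : L = fun k => X k ω := funext fun k => (h k).symm
      rw [this] at hL
      exact (Finset.mem_filter.mp hL).2
  have hsing : ∀ p : PrefList n d, MeasurableSet ({p} : Set (PrefList n d)) := fun _ => trivial
  have h2 : ∀ L : Fin m → PrefList n d, μ (⋂ k ∈ (univ : Finset (Fin m)), X k ⁻¹' {L k})
      = ((Fintype.card (PrefList n d) : ENNReal))⁻¹ ^ m := by
    intro L
    rw [hind.measure_inter_preimage_eq_mul univ (sets := fun k => {L k})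
      (fun k _ => hsing (L k))]
    simp only [hunif]
    rw [Finset.prod_const, Finset.card_univ, Fintype.card_fin]
  rw [h1, measure_biUnion_finset]
  · simp only [h2]
    rw [Finset.sum_const, nsmul_eq_mul]
    unfold matchProb
    rw [← hS]
    have hcard : (Fintype.card (Fin m → PrefList n d) : ℝ)
        = (Fintype.card (PrefList n d) : ℝ) ^ m := by
      rw [Fintype.card_fun, Fintype.card_fin]
      push_cast
      rfl
    rw [hcard]
    rcases Nat.eq_zero_or_pos (Fintype.card (PrefList n d)) with hz | hpos
    · exfalso
      have hne := Fintype.card_eq_zero_iff.mp hz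
      have : Nonempty Ω := by
        by_contra hcon
        rw [not_nonempty_iff] at hcon
        have := measure_univ (μ := μ)
        rw [Set.univ_eq_empty_iff.mpr hcon, measure_empty] at this
        exact zero_ne_one this
      exact hne.elim (X i (Classical.arbitrary Ω))
    · have hpos' : (0 : ℝ) < (Fintype.card (PrefList n d) : ℝ) ^ m := by positivity
      rw [ENNReal.ofReal_div_of_pos hpos', ENNReal.ofReal_natCast,
        ENNReal.ofReal_pow (by positivity), ENNReal.ofReal_natCast, div_eq_mul_inv,
        ENNReal.inv_pow]
  · intro L hL L' hL' hne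
    rw [Function.onFun, Set.disjoint_left]
    intro ω hω hω'
    apply hne
    funext k
    simp only [Set.mem_iInter, Set.mem_preimage, Set.mem_singleton_iff, Finset.mem_univ,
      forall_true_left] at hω hω'
    rw [← hω k, ← hω' k]
  · intro L _
    exact MeasurableSet.biInter (Set.to_countable _) fun k _ => hX k (hsing (L k))

end Pool.Agent.R815.SD
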