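import Pool.Agent.R815.SD.Drift

/-!
# Law of large numbers for the level counts
-/

namespace Pool.Agent.R815.SD

open Finset

/-- Poisson weights -/
noncomputable def po (s : ℝ) (j : ℕ) : ℝ := Real.exp (-s) * s ^ j / j.factorial

/-- limit fraction of full schools at clock time `s` -/
noncomputable def Fq (q : ℕ) (s : ℝ) : ℝ := 1 - ∑ j ∈ range q, po s j

/-- discrete clock -/
noncomputable def sig (d q n : ℕ) : ℕ → ℝ
  | 0 => 0
  | i + 1 => sig d q n i + gs d (Fq q (sig d q n i)) / n

lemma po_nonneg {s : ℝ} (hs : 0 ≤ s) (j : ℕ) : 0 ≤ po s j := by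
  unfold po; positivity

lemma po_le_one {s : ℝ} (hs : 0 ≤ s) (j : ℕ) : po s j ≤ 1 := by
  unfold po
  have h := Real.pow_div_factorial_le_exp s hs j
  rw [mul_div_assoc]
  calc Real.exp (-s) * (s ^ j / j.factorial) ≤ Real.exp (-s) * Real.exp s := by gcongr
    _ = 1 := by rw [← Real.exp_add]; simp

lemma sum_po_le {s : ℝ} (hs : 0 ≤ s) (q : ℕ) : ∑ j ∈ range q, po s j ≤ 1 := by
  unfold po
  have h := Real.sum_le_exp_of_nonneg hs q
  have e : ∑ j ∈ range q, Real.exp (-s) * s ^ j / j.factorial
      = Real.exp (-s) * ∑ j ∈ range q, s ^ j / j.factorial := by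
    rw [Finset.mul_sum]
    apply Finset.sum_congr rfl
    intro j _
    ring
  rw [e]
  calc Real.exp (-s) * ∑ j ∈ range q, s ^ j / j.factorial
      ≤ Real.exp (-s) * Real.exp s := by gcongr
    _ = 1 := by rw [← Real.exp_add]; simp

lemma isSub_po {s : ℝ} (hs : 0 ≤ s) (q : ℕ) : IsSub q (po s) :=
  ⟨po_nonneg hs, po_le_one hs, sum_po_le hs q⟩

lemma Fq_nonneg {s : ℝ} (hs : 0 ≤ s) (q : ℕ) : 0 ≤ Fq q s := by
  unfold Fq; linarith [sum_po_le hs q]

lemma Fq_le_one {s : ℝ} (hs : 0 ≤ s) (q : ℕ) : Fq q s ≤ 1 := by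
  unfold Fq
  have : 0 ≤ ∑ j ∈ range q, po s j := Finset.sum_nonneg fun _ _ => po_nonneg hs _
  linarith

lemma hasDerivAt_po (s : ℝ) (j : ℕ) :
    HasDerivAt (fun t => po t j) (prev (po s) j - po s j) s := by
  unfold po
  have h1 : HasDerivAt (fun t : ℝ => Real.exp (-t)) (-Real.exp (-s)) s := by
    have := (hasDerivAt_neg s).exp
    simpa using this
  cases j with
  | zero => simpa [prev] using h1
  | succ j =>
    have h2 := (h1.mul (hasDerivAt_pow (j + 1) s)).div_const ((j + 1).factorial : ℝ)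
    have e : prev (fun j => Real.exp (-s) * s ^ j / (j.factorial : ℝ)) (j + 1)
        - Real.exp (-s) * s ^ (j + 1) / ((j + 1).factorial : ℝ)
        = (-Real.exp (-s) * s ^ (j + 1) + Real.exp (-s) * (((j + 1 : ℕ) : ℝ) * s ^ (j + 1 - 1)))
          / ((j + 1).factorial : ℝ) := by
      have h3 : (((j + 1).factorial : ℕ) : ℝ) = ((j : ℝ) + 1) * (j.factorial : ℝ) := by
        rw [Nat.factorial_succ]; push_cast; ring
      rw [h3]
      have h4 : ((j : ℝ) + 1) ≠ 0 := by positivity
      have h5 : (j.factorial : ℝ) ≠ 0 := by positivity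
      show Real.exp (-s) * s ^ j / (j.factorial : ℝ) - _ = _
      rw [show j + 1 - 1 = j from rfl]
      push_cast
      field_simp
      ring
    rw [e]
    exact h2

lemma prev_po_mem {s : ℝ} (hs : 0 ≤ s) (j : ℕ) : 0 ≤ prev (po s) j ∧ prev (po s) j ≤ 1 := by
  cases j with
  | zero => simp [prev]
  | succ j => exact ⟨po_nonneg hs j, po_le_one hs j⟩

lemma po_lip {s t : ℝ} (hs : 0 ≤ s) (ht : 0 ≤ t) (j : ℕ) : |po s j - po t j| ≤ |s - t| := by
  have h := (convex_Ici (0 : ℝ)).norm_image_sub_le_of_norm_hasDerivWithin_le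
    (f := fun t => po t j) (f' := fun s => prev (po s) j - po s j) (C := 1) (x := t) (y := s)
    (fun x _ => (hasDerivAt_po x j).hasDerivWithinAt) (fun x hx => by
      have h1 := prev_po_mem hx j
      have h2 := po_nonneg hx j
      have h3 := po_le_one hx j
      rw [Real.norm_eq_abs, abs_le]
      constructor <;> linarith) ht hs
  simpa [Real.norm_eq_abs] using h

lemma prev_po_lip {s t : ℝ} (hs : 0 ≤ s) (ht : 0 ≤ t) (j : ℕ) :
    |prev (po s) j - prev (po t) j| ≤ |s - t| := by
  cases j with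
  | zero => simp [prev]
  | succ j => exact po_lip hs ht j

lemma po_taylor {s c : ℝ} (hs : 0 ≤ s) (hc : 0 ≤ c) (j : ℕ) :
    |po (s + c) j - po s j - c * (prev (po s) j - po s j)| ≤ 2 * c ^ 2 := by
  have h := (convex_Icc (0 : ℝ) c).norm_image_sub_le_of_norm_hasDerivWithin_le
    (f := fun t => po (s + t) j - t * (prev (po s) j - po s j))
    (f' := fun t => (prev (po (s + t)) j - po (s + t) j) - (prev (po s) j - po s j))
    (C := 2 * c) (x := 0) (y := c)
    (fun x _ => by
      apply HasDerivAt.hasDerivWithinAt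
      have h1 : HasDerivAt (fun t => po (s + t) j) (prev (po (s + x)) j - po (s + x) j) x := by
        have := (hasDerivAt_po (s + x) j).comp x ((hasDerivAt_id x).const_add s)
        simpa [Function.comp_def] using this
      have h2 : HasDerivAt (fun t : ℝ => t * (prev (po s) j - po s j))
          (prev (po s) j - po s j) x := by
        simpa using (hasDerivAt_id x).mul_const (prev (po s) j - po s j)
      exact h1.sub h2)
    (fun x hx => by
      have hx0 : 0 ≤ x := hx.1
      have h1 := prev_po_lip (s := s + x) (t := s) (by linarith) hs j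
      have h2 := po_lip (s := s + x) (t := s) (by linarith) hs j
      have e : s + x - s = x := by ring
      rw [e, abs_of_nonneg hx0] at h1 h2
      rw [Real.norm_eq_abs]
      have e2 : prev (po (s + x)) j - po (s + x) j - (prev (po s) j - po s j)
        = (prev (po (s + x)) j - prev (po s) j) - (po (s + x) j - po s j) := by ring
      rw [e2]
      refine (abs_sub _ _).trans ?_
      linarith [hx.2])
    (Set.left_mem_Icc.mpr hc) (Set.right_mem_Icc.mpr hc)
  simp only [Real.norm_eq_abs, add_zero, zero_mul, sub_zero] at h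
  rw [abs_of_nonneg hc] at h
  have e3 : po (s + c) j - po s j - c * (prev (po s) j - po s j)
    = po (s + c) j - c * (prev (po s) j - po s j) - po s j := by ring
  rw [e3]
  refine h.trans (le_of_eq ?_)
  ring

lemma sig_nonneg (d q n i : ℕ) : 0 ≤ sig d q n i := by
  induction i with
  | zero => simp [sig]
  | succ i ih =>
    simp only [sig]
    have := gs_nonneg (d := d) (Fq_nonneg ih q)
    positivity

lemma sig_step_err {d q n : ℕ} (hn : 0 < n) (i : ℕ) (j : ℕ) :
    |po (sig d q n (i + 1)) j - po (sig d q n i) j - drift d q (po (sig d q n i)) j / n|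
      ≤ (2 * (d : ℝ) ^ 2) / (n : ℝ) ^ 2 := by
  have hn' : (0 : ℝ) < n := by exact_mod_cast hn
  set s := sig d q n i with hs
  have hs0 : 0 ≤ s := sig_nonneg d q n i
  have hg0 : 0 ≤ gs d (Fq q s) := gs_nonneg (Fq_nonneg hs0 q)
  have hg1 : gs d (Fq q s) ≤ d := gs_le (Fq_nonneg hs0 q) (Fq_le_one hs0 q)
  have e : sig d q n (i + 1) = s + gs d (Fq q s) / n := rfl
  rw [e]
  have h := po_taylor hs0 (c := gs d (Fq q s) / n) (by positivity) j
  have e2 : drift d q (po s) j / n = gs d (Fq q s) / n * (prev (po s) j - po s j) := by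
    unfold drift Fq
    ring
  rw [e2]
  refine h.trans ?_
  have e3 : 2 * (d : ℝ) ^ 2 / (n : ℝ) ^ 2 = 2 * ((d : ℝ) / n) ^ 2 := by ring
  rw [e3]
  gcongr

lemma lev_zero {n : ℕ} (hn : 0 < n) (j : ℕ) : lev (fun _ : Fin n => 0) j = po 0 j := by
  have hn' : (n : ℝ) ≠ 0 := by positivity
  cases j with
  | zero => simp [lev, po, hn']
  | succ j => simp [lev, po]

/-- second moment bound -/
lemma EE_sqd_le {n d q : ℕ} (hn : 0 < n) (h : d ≤ n) {a b : ℝ}
    (ha : a = 2 * q * (2 * d + (d : ℝ) ^ 2))
    (hb : b = q * (2 * (2 * (d : ℝ) ^ 2 + 2 * (d : ℝ) ^ 2) + (1 + d + 2 * (d : ℝ) ^ 2) ^ 2)) (i : ℕ) :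
    EE n d q i (sqd q (po (sig d q n i))) ≤ i * b / (n : ℝ) ^ 2 * (1 + a / n) ^ i := by
  have hn' : (0 : ℝ) < n := by exact_mod_cast hn
  have ha0 : 0 ≤ a := by rw [ha]; positivity
  have hb0 : 0 ≤ b := by rw [hb]; positivity
  induction i with
  | zero =>
    rw [EE_zero]
    simp only [sqd, sig, CharP.cast_eq_zero, zero_mul, zero_div]
    apply le_of_eq
    apply Finset.sum_eq_zero
    intro j _
    rw [lev_zero hn, sub_self]
    norm_num
  | succ i ih =>
    rw [EE_succ]
    have hstep : ∀ o : Fin n → ℕ,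
        avgE n d q o (fun c => sqd q (po (sig d q n (i + 1))) (addTo o c)) ≤
          (1 + a / n) * sqd q (po (sig d q n i)) o + b / (n : ℝ) ^ 2 := by
      intro o
      have := sqd_step hn h (q := q) (isSub_po (sig_nonneg d q n i) q)
        (C := 2 * (d : ℝ) ^ 2) (by positivity) (y' := po (sig d q n (i + 1)))
        (fun j _ => sig_step_err hn i j) o
      rw [← ha, ← hb] at this
      exact this
    refine (EE_mono q i hstep).trans ?_
    rw [EE_add, EE_mul, EE_const h]
    have h1 : (1 + a / n) * EE n d q i (sqd q (po (sig d q n i)))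
        ≤ (1 + a / n) * (i * b / (n : ℝ) ^ 2 * (1 + a / n) ^ i) := by
      apply mul_le_mul_of_nonneg_left ih
      positivity
    have h2 : b / (n : ℝ) ^ 2 ≤ b / (n : ℝ) ^ 2 * (1 + a / n) ^ (i + 1) := by
      apply le_mul_of_one_le_right (by positivity)
      apply one_le_pow₀
      have : 0 ≤ a / n := by positivity
      linarith
    have e : ((i + 1 : ℕ) : ℝ) * b / (n : ℝ) ^ 2 * (1 + a / n) ^ (i + 1)
        = (1 + a / n) * (i * b / (n : ℝ) ^ 2 * (1 + a / n) ^ i)
          + b / (n : ℝ) ^ 2 * (1 + a / n) ^ (i + 1) := by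
      push_cast
      ring
    rw [e]
    linarith

/-- Probability that the student with `i` predecessors stays unmatched. -/
noncomputable def unmatchedProb (n d q i : ℕ) : ℝ :=
  EE n d q i (fun o => avgE n d q o (fun c => if c = none then 1 else 0))

lemma avgE_none {n d : ℕ} (hn : 0 < n) (h : d ≤ n) (q : ℕ) (o : Fin n → ℕ) :
    |avgE n d q o (fun c => if c = none then 1 else 0) - fullFrac q o ^ d| ≤ (d : ℝ) ^ 2 / n := by
  have h1 := avgE_sub_avgI hn h q o (fun c => if c = none then (1 : ℝ) else 0)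
    (fun c => by split_ifs <;> norm_num) (fun c => by split_ifs <;> norm_num)
  rw [avgI_eq hn] at h1
  simpa using h1

/-- The law of large numbers for the probability of staying unmatched. -/
theorem unmatchedProb_lln (d q : ℕ) : ∃ C : ℝ, 0 ≤ C ∧ ∀ n : ℕ, 0 < n → d ≤ n → ∀ i : ℕ,
    i ≤ n * q → |unmatchedProb n d q i - Fq q (sig d q n i) ^ d| ≤ C / Real.sqrt n := by
  set a : ℝ := 2 * q * (2 * d + (d : ℝ) ^ 2) with ha
  set b : ℝ := q * (2 * (2 * (d : ℝ) ^ 2 + 2 * (d : ℝ) ^ 2) + (1 + d + 2 * (d : ℝ) ^ 2) ^ 2)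
    with hb
  have ha0 : 0 ≤ a := by rw [ha]; positivity
  have hb0 : 0 ≤ b := by rw [hb]; positivity
  set K : ℝ := q * b * Real.exp (a * q) with hK
  have hK0 : 0 ≤ K := by positivity
  refine ⟨(d : ℝ) ^ 2 + d * (q + K), by positivity, ?_⟩
  intro n hn h i hi
  have hn' : (0 : ℝ) < n := by exact_mod_cast hn
  have hn1 : (1 : ℝ) ≤ n := by exact_mod_cast hn
  have hi' : (i : ℝ) ≤ n * q := by exact_mod_cast hi
  have hmom : EE n d q i (sqd q (po (sig d q n i))) ≤ K / n := by
    refine (EE_sqd_le hn h ha hb i).trans ?_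
    have h1 : (1 + a / n) ^ i ≤ Real.exp (a * q) := by
      have h2 : 1 + a / n ≤ Real.exp (a / n) := by
        have := Real.add_one_le_exp (a / n)
        linarith
      calc (1 + a / n) ^ i ≤ (Real.exp (a / n)) ^ i := by gcongr
        _ = Real.exp (i * (a / n)) := by rw [Real.exp_nat_mul]
        _ ≤ Real.exp (a * q) := by
            apply Real.exp_le_exp.mpr
            calc (i : ℝ) * (a / n) ≤ (n * q) * (a / n) := by gcongr
              _ = a * q := by field_simp
    calc (i : ℝ) * b / (n : ℝ) ^ 2 * (1 + a / n) ^ i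
        ≤ (n * q) * b / (n : ℝ) ^ 2 * Real.exp (a * q) := by gcongr
      _ = K / n := by rw [hK]; field_simp
  set s := sig d q n i with hs
  have hs0 : 0 ≤ s := sig_nonneg d q n i
  set r := Real.sqrt n with hr
  have hr0 : 0 < r := Real.sqrt_pos.mpr hn'
  have hrr : r * r = n := Real.mul_self_sqrt hn'.le
  have hr1 : 1 ≤ r := by
    rw [hr, Real.one_le_sqrt]
    exact hn1
  -- pointwise bound
  have hpt : ∀ o : Fin n → ℕ,
      |avgE n d q o (fun c => if c = none then 1 else 0) - Fq q s ^ d|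
        ≤ ((d : ℝ) ^ 2 / n + d * (q / r)) + (d * r) * sqd q (po s) o := by
    intro o
    have h1 := avgE_none hn h q o
    have h2 : |fullFrac q o ^ d - Fq q s ^ d| ≤ d * |fullFrac q o - Fq q s| :=
      pow_lip (fullFrac_nonneg q o) (fullFrac_le_one hn q o) (Fq_nonneg hs0 q) (Fq_le_one hs0 q)
    have h3 : |fullFrac q o - Fq q s| ≤ q / r + r * sqd q (po s) o := by
      have e : fullFrac q o - Fq q s = ∑ k ∈ range q, (po s k - lev o k) := by
        rw [fullFrac_eq hn, Fq, Finset.sum_sub_distrib]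
        ring
      rw [e]
      refine (Finset.abs_sum_le_sum_abs _ _).trans ?_
      have h4 : ∀ k ∈ range q, |po s k - lev o k| ≤ 1 / r + r * (lev o k - po s k) ^ 2 := by
        intro k _
        rw [abs_sub_comm]
        set v := |lev o k - po s k| with hv
        have hvv : (lev o k - po s k) ^ 2 = v ^ 2 := (sq_abs _).symm
        rw [hvv]
        have hv0 : 0 ≤ v := abs_nonneg _
        have h5 : v ≤ 1 / r + r * v ^ 2 := by
          have h6 : v * r ≤ 1 + (v * r) ^ 2 := by nlinarith [sq_nonneg (v * r - 1)]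
          have h7 : 1 / r + r * v ^ 2 = (1 + (v * r) ^ 2) / r := by
            field_simp
          rw [h7, le_div_iff₀ hr0]
          exact h6
        exact h5
      refine (Finset.sum_le_sum h4).trans ?_
      rw [Finset.sum_add_distrib, ← Finset.mul_sum, Finset.sum_const, Finset.card_range,
        nsmul_eq_mul]
      unfold sqd
      apply le_of_eq
      ring
    have h8 : |avgE n d q o (fun c => if c = none then 1 else 0) - Fq q s ^ d|
        ≤ |avgE n d q o (fun c => if c = none then 1 else 0) - fullFrac q o ^ d|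
          + |fullFrac q o ^ d - Fq q s ^ d| := abs_sub_le _ _ _
    have h9 : (d : ℝ) * |fullFrac q o - Fq q s| ≤ d * (q / r + r * sqd q (po s) o) := by gcongr
    nlinarith
  have hup : unmatchedProb n d q i ≤
      Fq q s ^ d + (((d : ℝ) ^ 2 / n + d * (q / r)) + (d * r) * (K / n)) := by
    have h1 : unmatchedProb n d q i ≤ EE n d q i (fun o =>
        (Fq q s ^ d + ((d : ℝ) ^ 2 / n + d * (q / r))) + (d * r) * sqd q (po s) o) := by
      apply EE_mono
      intro o
      have := (abs_le.mp (hpt o)).2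
      linarith
    rw [EE_add, EE_const h, EE_mul] at h1
    have h2 : (d * r) * EE n d q i (sqd q (po s)) ≤ (d * r) * (K / n) := by gcongr
    linarith
  have hlow : Fq q s ^ d - (((d : ℝ) ^ 2 / n + d * (q / r)) + (d * r) * (K / n)) ≤
      unmatchedProb n d q i := by
    have h1 : EE n d q i (fun o =>
        (Fq q s ^ d - ((d : ℝ) ^ 2 / n + d * (q / r))) + (-(d * r)) * sqd q (po s) o)
        ≤ unmatchedProb n d q i := by
      apply EE_mono
      intro o
      have := (abs_le.mp (hpt o)).1
      linarith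
    rw [EE_add, EE_const h, EE_mul] at h1
    have h2 : (d * r) * EE n d q i (sqd q (po s)) ≤ (d * r) * (K / n) := by gcongr
    linarith
  have hfin : ((d : ℝ) ^ 2 / n + d * (q / r)) + (d * r) * (K / n)
      ≤ ((d : ℝ) ^ 2 + d * (q + K)) / r := by
    have h1 : (d : ℝ) ^ 2 / n ≤ (d : ℝ) ^ 2 / r := by
      apply div_le_div_of_nonneg_left (by positivity) hr0
      nlinarith
    have h2 : (d * r) * (K / n) = d * K / r := by
      rw [← hrr]
      field_simp
    rw [h2]
    have h3 : ((d : ℝ) ^ 2 + d * (q + K)) / r = (d : ℝ) ^ 2 / r + d * (q / r) + d * K / r := by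
      ring
    rw [h3]
    linarith
  rw [abs_le]
  constructor <;> linarith

end Pool.Agent.R815.SD
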