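import Mathlib

/-!
# Serial dictatorship with multi-seat schools: the model and its one-step averages
-/

namespace Pool.Agent.R815.SD

open Finset

/-- A strict preference list of `d` distinct schools out of `n` schools: the entry with index
`k` is the `(k+1)`-st choice. -/
abbrev PrefList (n d : ℕ) : Type := Fin d ↪ Fin n

/-- The school at which a student with the ranked list `p` takes a seat, when `occ s` students
already sit at school `s` and every school has `q` seats: the first school on the list that still
has a free seat, `none` if there is no such school. -/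
def pick {n : ℕ} (q : ℕ) (occ : Fin n → ℕ) (p : List (Fin n)) : Option (Fin n) :=
  p.find? fun s => decide (occ s < q)

/-- Occupancies after one more student has taken a seat at the given school (or stayed
unmatched). -/
def addTo {n : ℕ} (occ : Fin n → ℕ) : Option (Fin n) → (Fin n → ℕ)
  | none => occ
  | some s => Function.update occ s (occ s + 1)

/-- Occupancies after a student with list `p` has acted. -/
def step {n d : ℕ} (q : ℕ) (occ : Fin n → ℕ) (p : PrefList n d) : Fin n → ℕ :=
  addTo occ (pick q occ (List.ofFn p))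

/-- Occupancies of the schools after the students with the lists in `l` have acted, in this
order, all seats being free at the start. -/
def occupancy {n d : ℕ} (q : ℕ) (l : List (PrefList n d)) : Fin n → ℕ :=
  l.foldl (step q) (fun _ => 0)

/-- Serial dictatorship with `m` students, `L k` being the list of student number `k + 1`:
student number `i + 1` is matched, i.e. when the students number `1, ..., i` have acted, some
school on her list has a free seat. -/
def Matched {n d m : ℕ} (q : ℕ) (L : Fin m → PrefList n d) (i : Fin m) : Prop :=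
  (pick q (occupancy q ((List.ofFn L).take i)) (List.ofFn (L i))).isSome = true

instance {n d m : ℕ} (q : ℕ) (L : Fin m → PrefList n d) (i : Fin m) : Decidable (Matched q L i) :=
  inferInstanceAs (Decidable (_ = true))

/-- The probability that student number `i + 1` is matched when each of `m` students has an
independent uniformly random list of `d` distinct schools out of `n`: the number of families of
lists for which she is matched, divided by the number of all families. -/
noncomputable def matchProb (n d q m : ℕ) (i : Fin m) : ℝ :=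
  ((univ.filter fun L : Fin m → PrefList n d => Matched q L i).card : ℝ) /
    (Fintype.card (Fin m → PrefList n d) : ℝ)

/-! ## finite version -/

/-- Occupancies after the `i` students with lists `L 0, ..., L (i-1)` have acted. -/
def occF {n d : ℕ} (q : ℕ) : (i : ℕ) → (Fin i → PrefList n d) → (Fin n → ℕ)
  | 0, _ => fun _ => 0
  | i + 1, L => step q (occF q i (Fin.init L)) (L (Fin.last i))

lemma occupancy_ofFn {n d : ℕ} (q i : ℕ) (L : Fin i → PrefList n d) :
    occupancy q (List.ofFn L) = occF q i L := by
  induction i with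
  | zero => simp [occupancy, occF]
  | succ i ih =>
    rw [List.ofFn_succ', List.concat_eq_append]
    unfold occupancy at ih ⊢
    rw [List.foldl_append]
    simp only [List.foldl_cons, List.foldl_nil, occF]
    have := ih (Fin.init L)
    rw [← this]
    rfl

lemma matched_last {n d : ℕ} (q k : ℕ) (L : Fin (k + 1) → PrefList n d) :
    Matched q L (Fin.last k) ↔
      (pick q (occF q k (Fin.init L)) (List.ofFn (L (Fin.last k)))).isSome = true := by
  unfold Matched
  have h : (List.ofFn L).take (Fin.last k : ℕ) = List.ofFn (Fin.init L) := by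
    rw [List.ofFn_succ', List.concat_eq_append]
    have hl : (List.ofFn fun i : Fin k => L i.castSucc).length = k := by simp
    rw [Fin.val_last, List.take_append_of_le_length (by rw [hl])]
    rw [List.take_of_length_le (by rw [hl])]
    rfl
  rw [h, occupancy_ofFn]

/-- Average of a function of the occupancies over all families of lists of the first `i`
students. -/
noncomputable def EE (n d q i : ℕ) (f : (Fin n → ℕ) → ℝ) : ℝ :=
  (∑ L : Fin i → PrefList n d, f (occF q i L)) / (Fintype.card (PrefList n d) : ℝ) ^ i

/-- Average over the list of one student of a function of the school she gets. -/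
noncomputable def avgE (n d q : ℕ) (o : Fin n → ℕ) (φ : Option (Fin n) → ℝ) : ℝ :=
  (∑ p : PrefList n d, φ (pick q o (List.ofFn p))) / (Fintype.card (PrefList n d) : ℝ)

/-- The same average over all sequences of `d` schools, repetitions allowed. -/
noncomputable def avgI (n d q : ℕ) (o : Fin n → ℕ) (φ : Option (Fin n) → ℝ) : ℝ :=
  (∑ f : Fin d → Fin n, φ (pick q o (List.ofFn f))) / (n : ℝ) ^ d

lemma card_prefList_pos {n d : ℕ} (h : d ≤ n) : 0 < (Fintype.card (PrefList n d) : ℝ) := by
  rw [Fintype.card_embedding_eq]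
  simp only [Fintype.card_fin]
  exact_mod_cast Nat.descFactorial_pos.mpr h

lemma EE_zero (n d q : ℕ) (f : (Fin n → ℕ) → ℝ) : EE n d q 0 f = f (fun _ => 0) := by
  simp [EE, occF]

lemma EE_succ {n d : ℕ} (q i : ℕ) (f : (Fin n → ℕ) → ℝ) :
    EE n d q (i + 1) f = EE n d q i (fun o => avgE n d q o (fun c => f (addTo o c))) := by
  unfold EE avgE
  have e := (Fin.snocEquiv (fun _ : Fin (i + 1) => PrefList n d)).sum_comp
    (fun L : Fin (i + 1) → PrefList n d => f (occF q (i + 1) L))
  rw [← e, Fintype.sum_prod_type_right]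
  have : ∀ L : Fin i → PrefList n d, ∀ p : PrefList n d,
      f (occF q (i + 1) ((Fin.snocEquiv (fun _ : Fin (i + 1) => PrefList n d)) (p, L)))
        = f (addTo (occF q i L) (pick q (occF q i L) (List.ofFn p))) := by
    intro L p
    simp only [occF, step, Fin.snocEquiv, Equiv.coe_fn_mk, Fin.init_snoc, Fin.snoc_last]
  simp only [this]
  rw [← Finset.sum_div, div_div, pow_succ']

lemma EE_mono {n d : ℕ} (q i : ℕ) {f g : (Fin n → ℕ) → ℝ} (h : ∀ o, f o ≤ g o) :
    EE n d q i f ≤ EE n d q i g := by
  unfold EE
  gcongr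
  exact h _

lemma EE_add {n d : ℕ} (q i : ℕ) (f g : (Fin n → ℕ) → ℝ) :
    EE n d q i (fun o => f o + g o) = EE n d q i f + EE n d q i g := by
  unfold EE
  rw [Finset.sum_add_distrib, add_div]

lemma EE_mul {n d : ℕ} (q i : ℕ) (a : ℝ) (f : (Fin n → ℕ) → ℝ) :
    EE n d q i (fun o => a * f o) = a * EE n d q i f := by
  unfold EE
  rw [← Finset.mul_sum, mul_div_assoc]

lemma EE_const {n d : ℕ} (h : d ≤ n) (q i : ℕ) (a : ℝ) :
    EE n d q i (fun _ => a) = a := by
  unfold EE
  have hc := card_prefList_pos h
  rw [Finset.sum_const, nsmul_eq_mul, Finset.card_univ, Fintype.card_fun, Fintype.card_fin]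
  push_cast
  field_simp

/-! ## one step -/

lemma avgE_mono {n d : ℕ} (q : ℕ) (o : Fin n → ℕ) {f g : Option (Fin n) → ℝ}
    (h : ∀ c, f c ≤ g c) : avgE n d q o f ≤ avgE n d q o g := by
  unfold avgE
  gcongr
  exact h _

lemma avgE_add {n d : ℕ} (q : ℕ) (o : Fin n → ℕ) (f g : Option (Fin n) → ℝ) :
    avgE n d q o (fun c => f c + g c) = avgE n d q o f + avgE n d q o g := by
  unfold avgE
  rw [Finset.sum_add_distrib, add_div]

lemma avgE_sub {n d : ℕ} (q : ℕ) (o : Fin n → ℕ) (f g : Option (Fin n) → ℝ) :
    avgE n d q o (fun c => f c - g c) = avgE n d q o f - avgE n d q o g := by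
  unfold avgE
  rw [Finset.sum_sub_distrib, sub_div]

lemma avgE_mul {n d : ℕ} (q : ℕ) (o : Fin n → ℕ) (a : ℝ) (f : Option (Fin n) → ℝ) :
    avgE n d q o (fun c => a * f c) = a * avgE n d q o f := by
  unfold avgE
  rw [← Finset.mul_sum, mul_div_assoc]

lemma avgE_const {n d : ℕ} (h : d ≤ n) (q : ℕ) (o : Fin n → ℕ) (a : ℝ) :
    avgE n d q o (fun _ => a) = a := by
  unfold avgE
  have hc := card_prefList_pos h
  rw [Finset.sum_const, nsmul_eq_mul, Finset.card_univ]
  field_simp

lemma avgE_sum {n d : ℕ} (q : ℕ) (o : Fin n → ℕ) {ι : Type*} (s : Finset ι)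
    (f : ι → Option (Fin n) → ℝ) :
    avgE n d q o (fun c => ∑ j ∈ s, f j c) = ∑ j ∈ s, avgE n d q o (f j) := by
  unfold avgE
  rw [Finset.sum_comm, Finset.sum_div]

/-- The fraction of full schools. -/
noncomputable def fullFrac {n : ℕ} (q : ℕ) (o : Fin n → ℕ) : ℝ :=
  ((univ.filter fun s => ¬ o s < q).card : ℝ) / n

lemma pick_cons {n : ℕ} (q : ℕ) (o : Fin n → ℕ) (s : Fin n) (l : List (Fin n)) :
    pick q o (s :: l) = if o s < q then some s else pick q o l := by
  unfold pick
  by_cases h : o s < q
  · simp [h]
  · simp [h]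

lemma avgI_succ {n : ℕ} (hn : 0 < n) (d q : ℕ) (o : Fin n → ℕ) (φ : Option (Fin n) → ℝ) :
    avgI n (d + 1) q o φ = (∑ s ∈ univ.filter (fun s => o s < q), φ (some s)) / n
      + fullFrac q o * avgI n d q o φ := by
  have hn' : (n : ℝ) ≠ 0 := by positivity
  unfold avgI
  have e := (Fin.consEquiv (fun _ : Fin (d + 1) => Fin n)).sum_comp
    (fun f : Fin (d + 1) → Fin n => φ (pick q o (List.ofFn f)))
  rw [← e, Fintype.sum_prod_type]
  have : ∀ s : Fin n, ∀ f : Fin d → Fin n,
      φ (pick q o (List.ofFn ((Fin.consEquiv (fun _ : Fin (d + 1) => Fin n)) (s, f))))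
        = if o s < q then φ (some s) else φ (pick q o (List.ofFn f)) := by
    intro s f
    have h1 : List.ofFn ((Fin.consEquiv (fun _ : Fin (d + 1) => Fin n)) (s, f))
        = s :: List.ofFn f := by
      rw [List.ofFn_succ]
      simp [Fin.consEquiv]
    rw [h1, pick_cons]
    split_ifs <;> rfl
  simp only [this]
  have h2 : ∀ s : Fin n, (∑ f : Fin d → Fin n,
      if o s < q then φ (some s) else φ (pick q o (List.ofFn f)))
      = (if o s < q then (n : ℝ) ^ d * φ (some s) else 0)
        + (if ¬ o s < q then ∑ f : Fin d → Fin n, φ (pick q o (List.ofFn f)) else 0) := by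
    intro s
    by_cases h : o s < q
    · simp [h, Finset.sum_const, Finset.card_univ]
    · simp [h]
  simp only [h2]
  rw [Finset.sum_add_distrib, ← Finset.sum_filter, ← Finset.sum_filter, ← Finset.mul_sum,
    Finset.sum_const, nsmul_eq_mul]
  unfold fullFrac
  rw [pow_succ]
  field_simp

lemma avgI_eq {n : ℕ} (hn : 0 < n) (d q : ℕ) (o : Fin n → ℕ) (φ : Option (Fin n) → ℝ) :
    avgI n d q o φ = (∑ k ∈ range d, fullFrac q o ^ k) *
        ((∑ s ∈ univ.filter (fun s => o s < q), φ (some s)) / n)
      + fullFrac q o ^ d * φ none := by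
  induction d with
  | zero => simp [avgI, pick]
  | succ d ih =>
    rw [avgI_succ hn, ih, Finset.sum_range_succ', pow_succ]
    simp only [pow_succ, pow_zero]
    rw [← Finset.sum_mul]
    ring

lemma sum_embedding {n d : ℕ} (ψ : (Fin d → Fin n) → ℝ) :
    (∑ p : PrefList n d, ψ p) = ∑ f ∈ univ.filter (fun f : Fin d → Fin n => Function.Injective f),
      ψ f := by
  rw [← Finset.sum_subtype_eq_sum_filter]
  simp only [Finset.subtype_univ]
  exact ((Equiv.subtypeInjectiveEquivEmbedding (Fin d) (Fin n)).sum_comp
    (fun p : PrefList n d => ψ p)).symm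

lemma descFactorial_bound {n d : ℕ} (hn : 0 < n) (h : d ≤ n) :
    1 - (d : ℝ) ^ 2 / n ≤ (n.descFactorial d : ℝ) / (n : ℝ) ^ d := by
  have hn' : (0 : ℝ) < n := by exact_mod_cast hn
  have h1 : (n + 1 - d) ^ d ≤ n.descFactorial d := Nat.pow_sub_le_descFactorial n d
  have h2 : ((n : ℝ) - d) ^ d ≤ (n.descFactorial d : ℝ) := by
    have h3 : ((n : ℝ) - d) ^ d ≤ (((n + 1 - d : ℕ) : ℝ)) ^ d := by
      apply pow_le_pow_left₀
      · have : (d : ℝ) ≤ n := by exact_mod_cast h
        linarith
      · have : (n : ℝ) - d = ((n - d : ℕ) : ℝ) := by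
          rw [Nat.cast_sub h]
        rw [this]
        exact_mod_cast (by omega : n - d ≤ n + 1 - d)
    refine h3.trans ?_
    exact_mod_cast h1
  have h4 : 1 - (d : ℝ) ^ 2 / n ≤ (((n : ℝ) - d) / n) ^ d := by
    have h5 := one_add_mul_le_pow (a := -((d : ℝ) / n)) (by
      have : (d : ℝ) / n ≤ 1 := by
        rw [div_le_one hn']
        exact_mod_cast h
      linarith) d
    have h6 : (1 + -((d : ℝ) / n)) = ((n : ℝ) - d) / n := by
      field_simp
      ring
    rw [h6] at h5
    refine le_trans (le_of_eq ?_) h5
    ring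
  refine h4.trans ?_
  rw [div_pow]
  gcongr

lemma avgE_sub_avgI {n d : ℕ} (hn : 0 < n) (h : d ≤ n) (q : ℕ) (o : Fin n → ℕ)
    (φ : Option (Fin n) → ℝ) (h0 : ∀ c, 0 ≤ φ c) (h1 : ∀ c, φ c ≤ 1) :
    |avgE n d q o φ - avgI n d q o φ| ≤ (d : ℝ) ^ 2 / n := by
  have hn' : (0 : ℝ) < n := by exact_mod_cast hn
  have hc : 0 < (Fintype.card (PrefList n d) : ℝ) := card_prefList_pos h
  have hcard : (Fintype.card (PrefList n d) : ℝ) = (n.descFactorial d : ℝ) := by
    rw [Fintype.card_embedding_eq]
    simp
  set c : ℝ := (n.descFactorial d : ℝ) with hcdef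
  rw [hcard] at hc
  have hm : 0 < (n : ℝ) ^ d := by positivity
  set m : ℝ := (n : ℝ) ^ d with hmdef
  have hb : 1 - (d : ℝ) ^ 2 / n ≤ c / m := descFactorial_bound hn h
  unfold avgE avgI
  rw [hcard, sum_embedding (fun f => φ (pick q o (List.ofFn f)))]
  rw [← Finset.sum_filter_add_sum_filter_not univ (fun f : Fin d → Fin n => Function.Injective f)
    (fun f => φ (pick q o (List.ofFn f)))]
  have hcinj : ((univ.filter (fun f : Fin d → Fin n => Function.Injective f)).card : ℝ) = c := by
    have := sum_embedding (n := n) (d := d) (fun _ => 1)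
    simp only [Finset.sum_const, nsmul_eq_mul, mul_one, Finset.card_univ] at this
    rw [← this, hcard]
  have htot : ((univ.filter (fun f : Fin d → Fin n => Function.Injective f)).card : ℝ)
      + ((univ.filter (fun f : Fin d → Fin n => ¬ Function.Injective f)).card : ℝ) = m := by
    have := Finset.card_filter_add_card_filter_not (s := (univ : Finset (Fin d → Fin n)))
      (fun f : Fin d → Fin n => Function.Injective f)
    rw [Finset.card_univ, Fintype.card_fun, Fintype.card_fin, Fintype.card_fin] at this
    have h' : (((univ.filter (fun f : Fin d → Fin n => Function.Injective f)).card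
      + (univ.filter (fun f : Fin d → Fin n => ¬ Function.Injective f)).card : ℕ) : ℝ)
      = ((n ^ d : ℕ) : ℝ) := by rw [this]
    push_cast at h'
    rw [hmdef]
    exact h'
  set A : ℝ := ∑ f ∈ univ.filter (fun f : Fin d → Fin n => Function.Injective f),
    φ (pick q o (List.ofFn f)) with hA
  set B : ℝ := ∑ f ∈ univ.filter (fun f : Fin d → Fin n => ¬ Function.Injective f),
    φ (pick q o (List.ofFn f)) with hB
  have hA0 : 0 ≤ A := Finset.sum_nonneg fun _ _ => h0 _
  have hB0 : 0 ≤ B := Finset.sum_nonneg fun _ _ => h0 _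
  have hA1 : A ≤ c := by
    rw [← hcinj, hA]
    refine (Finset.sum_le_card_nsmul _ _ 1 fun f _ => h1 _).trans ?_
    simp
  have hB1 : B ≤ m - c := by
    have : B ≤ ((univ.filter (fun f : Fin d → Fin n => ¬ Function.Injective f)).card : ℝ) := by
      rw [hB]
      refine (Finset.sum_le_card_nsmul _ _ 1 fun f _ => h1 _).trans ?_
      simp
    linarith
  have hcm : c ≤ m := by linarith
  have hcm' : 1 - c / m ≤ (d : ℝ) ^ 2 / n := by linarith
  have e1 : A / c - (A + B) / m = A / c * (1 - c / m) - B / m := by
    field_simp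
    ring
  have e2 : 0 ≤ 1 - c / m := by
    have : c / m ≤ 1 := by
      rw [div_le_one hm]
      exact hcm
    linarith
  have e3 : A / c ≤ 1 := by
    rw [div_le_one hc]
    exact hA1
  have e4 : 0 ≤ A / c := by positivity
  have e5 : B / m ≤ 1 - c / m := by
    have : 1 - c / m = (m - c) / m := by
      field_simp
    rw [this]
    gcongr
  have e6 : 0 ≤ B / m := by positivity
  rw [e1, abs_le]
  constructor
  · nlinarith [mul_nonneg e4 e2]
  · nlinarith [mul_le_mul_of_nonneg_right e3 e2]

end Pool.Agent.R815.SD
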