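import Pool.Agent.R815.SD.Clock

/-!
# Numerical verification with integer arithmetic
-/

namespace Pool.Agent.R815.SD

open Finset

namespace Num

/-- scale -/
def P : ℕ := 10 ^ 24

/-- scale of the base value -/
def E0 : ℕ := 10 ^ 15

/-- upper bound of `exp (-1/50)` -/
def EU : ℕ := 980198673306756

/-- lower bound of `exp (-1/50)` -/
def EL : ℕ := 980198673306755

/-- upper bound of `exp (-k/50)` -/
def eu (k : ℕ) : ℕ := EU ^ k * P / E0 ^ k + 1

/-- lower bound of `exp (-k/50)` -/
def el (k : ℕ) : ℕ := EL ^ k * P / E0 ^ k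

/-- common denominator -/
def Den : ℕ := 50 ^ 11 * 39916800

/-- numerator for `GG 12` -/
def Qn (k : ℕ) : ℕ :=
  194906250000000000000000000 + 3898125000000000000000000 * k + 38981250000000000000000 * k ^ 2
  + 259875000000000000000 * k ^ 3 + 1299375000000000000 * k ^ 4 + 5197500000000000 * k ^ 5
  + 17325000000000 * k ^ 6 + 49500000000 * k ^ 7 + 123750000 * k ^ 8 + 275000 * k ^ 9
  + 550 * k ^ 10 + k ^ 11

/-- numerator for `RR 12` -/
def RQ (k : ℕ) : ℕ :=
  2338875000000000000000000000 + 42879375000000000000000000 * k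
  + 389812500000000000000000 * k ^ 2 + 2338875000000000000000 * k ^ 3
  + 10395000000000000000 * k ^ 4 + 36382500000000000 * k ^ 5 + 103950000000000 * k ^ 6
  + 247500000000 * k ^ 7 + 495000000 * k ^ 8 + 825000 * k ^ 9 + 1100 * k ^ 10 + k ^ 11

/-- the value of `P * gg d (F / P)`, rounded down -/
def gval (d F : ℕ) : ℕ := (P - F) * F ^ d / (P ^ d - F ^ d)

/-- lower bound for `P * gg 12 (Fq 12 (k/50))` -/
def glo (k : ℕ) : ℕ := gval 12 (P - (eu k * Qn k / Den + 1))

/-- upper bound for `P * gg 1000 (Fq 12 (k/50))` -/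
def gup (k : ℕ) : ℕ :=
  if el k * Qn k / Den = 0 then P else gval 1000 (P - el k * Qn k / Den) + 1

/-- sum over a dyadic block -/
def bsum (f : ℕ → ℕ) : ℕ → ℕ → ℕ
  | 0, a => f a
  | l + 1, a => bsum f l a + bsum f l (a + 2 ^ l)

lemma bsum_eq (f : ℕ → ℕ) (l a : ℕ) : bsum f l a = ∑ i ∈ range (2 ^ l), f (a + i) := by
  induction l generalizing a with
  | zero => simp [bsum]
  | succ l ih =>
    simp only [bsum]
    rw [ih, ih, pow_succ, mul_two, Finset.sum_range_add]
    congr 1
    apply Finset.sum_congr rfl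
    intro i _
    rw [add_assoc]

/-- guarded terms -/
def tlo (k : ℕ) : ℕ := if k < 893 then glo k else 0

/-- guarded terms -/
def tup (k : ℕ) : ℕ := if k < 1307 then gup (k + 1) else 0

set_option maxRecDepth 100000 in
theorem check1 : 50 * (eu 893 * RQ 893 / Den + 1) < bsum tlo 10 0 := by
  decide +kernel

set_option maxRecDepth 100000 in
theorem check2 : bsum tup 11 0 < 50 * (el 1307 * RQ 1307 / Den) := by
  decide +kernel

set_option maxRecDepth 100000 in
theorem check3 : (P - el 893 * Qn 893 / Den) ^ 12 * P ^ 988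
    < (P - (eu 1307 * Qn 1307 / Den + 1)) ^ 1000 := by
  decide +kernel

end Num

end Pool.Agent.R815.SD
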