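import Pool.Agent.R815.SD.Num

/-!
# From the integer checks to the real inequalities
-/

namespace Pool.Agent.R815.SD

open Finset

namespace Num

lemma floor_le (a b : ℕ) : ((a / b : ℕ) : ℝ) ≤ (a : ℝ) / b := Nat.cast_div_le

lemma lt_floor {a b : ℕ} (hb : 0 < b) : (a : ℝ) / b ≤ ((a / b : ℕ) : ℝ) + 1 := by
  have hb' : (0 : ℝ) < b := by exact_mod_cast hb
  rw [div_le_iff₀ hb']
  have h1 := Nat.div_add_mod a b
  have h2 := Nat.mod_lt a hb
  have h3 : a ≤ (a / b + 1) * b := by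
    calc a = b * (a / b) + a % b := h1.symm
      _ ≤ b * (a / b) + b := by omega
      _ = (a / b + 1) * b := by ring
  exact_mod_cast h3

lemma exp_le : Real.exp (-(1 / 50)) ≤ (EU : ℝ) / E0 := by
  have h := Real.sum_le_exp_of_nonneg (x := 1 / 50) (by norm_num) 8
  have h0 : (0 : ℝ) < ∑ i ∈ range 8, (1 / 50 : ℝ) ^ i / i.factorial := by
    simp only [Finset.sum_range_succ, Finset.sum_range_zero, Nat.factorial]
    norm_num
  rw [Real.exp_neg, inv_eq_one_div]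
  calc 1 / Real.exp (1 / 50) ≤ 1 / ∑ i ∈ range 8, (1 / 50 : ℝ) ^ i / i.factorial :=
        one_div_le_one_div_of_le h0 h
    _ ≤ (EU : ℝ) / E0 := by
        simp only [Finset.sum_range_succ, Finset.sum_range_zero, Nat.factorial, EU, E0]
        norm_num

lemma le_exp : (EL : ℝ) / E0 ≤ Real.exp (-(1 / 50)) := by
  have h := Real.exp_bound' (x := 1 / 50) (by norm_num) (by norm_num) (n := 8) (by norm_num)
  rw [Real.exp_neg, inv_eq_one_div]
  calc (EL : ℝ) / E0 ≤ 1 / (∑ m ∈ range 8, (1 / 50 : ℝ) ^ m / m.factorial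
        + (1 / 50 : ℝ) ^ 8 * (8 + 1) / (Nat.factorial 8 * 8)) := by
        simp only [Finset.sum_range_succ, Finset.sum_range_zero, Nat.factorial, EL, E0]
        norm_num
    _ ≤ 1 / Real.exp (1 / 50) := by
        apply one_div_le_one_div_of_le (Real.exp_pos _)
        exact_mod_cast h

lemma P_pos : (0 : ℝ) < (P : ℝ) := by norm_num [P]

lemma E0_pos : (0 : ℝ) < (E0 : ℝ) := by norm_num [E0]

lemma Den_pos : (0 : ℝ) < (Den : ℝ) := by norm_num [Den]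

lemma exp_pow (k : ℕ) : Real.exp (-((1 / 50 : ℝ) * k)) = Real.exp (-(1 / 50)) ^ k := by
  rw [← Real.exp_nat_mul]
  congr 1
  ring

lemma eu_spec (k : ℕ) : Real.exp (-((1 / 50 : ℝ) * k)) ≤ (eu k : ℝ) / P := by
  rw [exp_pow, le_div_iff₀ P_pos]
  have h1 : Real.exp (-(1 / 50)) ^ k ≤ ((EU : ℝ) / E0) ^ k :=
    pow_le_pow_left₀ (Real.exp_pos _).le exp_le k
  have h2 : ((EU ^ k * P : ℕ) : ℝ) / ((E0 ^ k : ℕ) : ℝ) ≤ ((EU ^ k * P / E0 ^ k : ℕ) : ℝ) + 1 :=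
    lt_floor (by unfold E0; positivity)
  have h3 : ((eu k : ℕ) : ℝ) = ((EU ^ k * P / E0 ^ k : ℕ) : ℝ) + 1 := by
    unfold eu; push_cast; ring
  rw [h3]
  refine le_trans ?_ h2
  push_cast
  calc Real.exp (-(1 / 50)) ^ k * (P : ℝ) ≤ ((EU : ℝ) / E0) ^ k * P :=
        mul_le_mul_of_nonneg_right h1 P_pos.le
    _ = (EU : ℝ) ^ k * P / (E0 : ℝ) ^ k := by rw [div_pow]; ring

lemma el_spec (k : ℕ) : (el k : ℝ) / P ≤ Real.exp (-((1 / 50 : ℝ) * k)) := by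
  rw [exp_pow, div_le_iff₀ P_pos]
  have h1 : ((EL : ℝ) / E0) ^ k ≤ Real.exp (-(1 / 50)) ^ k :=
    pow_le_pow_left₀ (by positivity) le_exp k
  have h2 : ((EL ^ k * P / E0 ^ k : ℕ) : ℝ) ≤ ((EL ^ k * P : ℕ) : ℝ) / ((E0 ^ k : ℕ) : ℝ) :=
    floor_le _ _
  have h3 : ((el k : ℕ) : ℝ) = ((EL ^ k * P / E0 ^ k : ℕ) : ℝ) := by
    unfold el; rfl
  rw [h3]
  refine h2.trans ?_
  push_cast
  calc (EL : ℝ) ^ k * P / (E0 : ℝ) ^ k = ((EL : ℝ) / E0) ^ k * P := by rw [div_pow]; ring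
    _ ≤ Real.exp (-(1 / 50)) ^ k * (P : ℝ) := mul_le_mul_of_nonneg_right h1 P_pos.le

lemma GG_eq (k : ℕ) : GG 12 ((1 / 50 : ℝ) * k)
    = Real.exp (-((1 / 50 : ℝ) * k)) * Qn k / Den := by
  unfold GG po
  simp only [Finset.sum_range_succ, Finset.sum_range_zero, Nat.factorial, Qn, Den]
  push_cast
  ring

lemma RR_eq (k : ℕ) : RR 12 ((1 / 50 : ℝ) * k)
    = Real.exp (-((1 / 50 : ℝ) * k)) * RQ k / Den := by
  unfold RR GG po
  simp only [Finset.sum_range_succ, Finset.sum_range_zero, Nat.factorial, RQ, Den]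
  push_cast
  ring

lemma up_of (k Q : ℕ) : Real.exp (-((1 / 50 : ℝ) * k)) * Q / Den
    ≤ ((eu k * Q / Den + 1 : ℕ) : ℝ) / P := by
  have h1 := eu_spec k
  have h2 : ((eu k * Q : ℕ) : ℝ) / (Den : ℝ) ≤ ((eu k * Q / Den : ℕ) : ℝ) + 1 :=
    lt_floor (by unfold Den; positivity)
  push_cast at h2 ⊢
  calc Real.exp (-((1 / 50 : ℝ) * k)) * Q / Den ≤ (eu k : ℝ) / P * Q / Den := by
        have := Den_pos
        gcongr
    _ = ((eu k : ℝ) * Q / Den) / P := by ring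
    _ ≤ _ := by
        have := P_pos
        gcongr

lemma low_of (k Q : ℕ) : ((el k * Q / Den : ℕ) : ℝ) / P
    ≤ Real.exp (-((1 / 50 : ℝ) * k)) * Q / Den := by
  have h1 := el_spec k
  have h2 : ((el k * Q / Den : ℕ) : ℝ) ≤ ((el k * Q : ℕ) : ℝ) / (Den : ℝ) := floor_le _ _
  rw [Nat.cast_mul] at h2
  calc ((el k * Q / Den : ℕ) : ℝ) / P ≤ ((el k : ℝ) * Q / Den) / P := by
        have := P_pos
        gcongr
    _ = (el k : ℝ) / P * Q / Den := by ring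
    _ ≤ _ := by
        have := Den_pos
        gcongr

lemma gg_eq {d F : ℕ} (hd : 0 < d) (hF : F < P) :
    gg d ((F : ℝ) / P) * P = (((P - F) * F ^ d : ℕ) : ℝ) / ((P ^ d - F ^ d : ℕ) : ℝ) := by
  have hP := P_pos
  have hF' : (F : ℝ) < P := by exact_mod_cast hF
  have hx0 : 0 ≤ (F : ℝ) / P := by positivity
  have hx1 : (F : ℝ) / P < 1 := by rw [div_lt_one hP]; exact hF'
  have hlt : F ^ d < P ^ d := Nat.pow_lt_pow_left hF (by omega)
  rw [Nat.cast_mul, Nat.cast_sub hF.le, Nat.cast_sub hlt.le]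
  push_cast
  have hlt' : (F : ℝ) ^ d < (P : ℝ) ^ d := by exact_mod_cast hlt
  have hgs : gs d ((F : ℝ) / P) = (1 - ((F : ℝ) / P) ^ d) / (1 - (F : ℝ) / P) := by
    have h1 := mul_neg_geom_sum ((F : ℝ) / P) d
    rw [eq_div_iff (by linarith)]
    unfold gs
    linarith
  unfold gg
  rw [hgs]
  have h2 : (1 : ℝ) - (F : ℝ) / P ≠ 0 := by linarith
  have h3 : (1 : ℝ) - ((F : ℝ) / P) ^ d ≠ 0 := by
    have : ((F : ℝ) / P) ^ d < 1 := pow_lt_one₀ hx0 hx1 (by omega)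
    linarith
  have h4 : (P : ℝ) ^ d - (F : ℝ) ^ d ≠ 0 := by linarith
  have h5 : (P : ℝ) ≠ 0 := hP.ne'
  have h6 : (P : ℝ) - F ≠ 0 := by linarith
  rw [div_pow] at h3 ⊢
  have h7 : (1 : ℝ) - (F : ℝ) ^ d / (P : ℝ) ^ d = ((P : ℝ) ^ d - (F : ℝ) ^ d) / (P : ℝ) ^ d := by
    field_simp
  have h8 : (1 : ℝ) - (F : ℝ) / P = ((P : ℝ) - F) / P := by
    field_simp
  rw [h7, h8]
  field_simp

lemma gval_low {d F : ℕ} (hd : 0 < d) (hF : F < P) :
    (gval d F : ℝ) / P ≤ gg d ((F : ℝ) / P) := by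
  rw [div_le_iff₀ P_pos, gg_eq hd hF]
  exact floor_le _ _

lemma gval_up {d F : ℕ} (hd : 0 < d) (hF : F < P) :
    gg d ((F : ℝ) / P) ≤ ((gval d F + 1 : ℕ) : ℝ) / P := by
  rw [le_div_iff₀ P_pos, gg_eq hd hF, Nat.cast_add, Nat.cast_one]
  have hlt : F ^ d < P ^ d := Nat.pow_lt_pow_left hF (by omega)
  exact lt_floor (by omega)

lemma nonneg_k (k : ℕ) : (0 : ℝ) ≤ 1 / 50 * k := by positivity

lemma F_le {k Q : ℕ} (hQ : Q = Qn k) :
    Fq 12 ((1 / 50 : ℝ) * k) ≤ ((P - el k * Q / Den : ℕ) : ℝ) / P := by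
  subst hQ
  have h1 := low_of k (Qn k)
  rw [← GG_eq] at h1
  have hG1 : GG 12 ((1 / 50 : ℝ) * k) ≤ 1 := by
    have := Fq_nonneg (nonneg_k k) 12
    rw [Fq_eq] at this
    linarith
  have hle : el k * Qn k / Den ≤ P := by
    have h2 : ((el k * Qn k / Den : ℕ) : ℝ) / P ≤ 1 := h1.trans hG1
    rw [div_le_one P_pos] at h2
    exact_mod_cast h2
  rw [Nat.cast_sub hle, Fq_eq, sub_div, div_self P_pos.ne']
  linarith

lemma le_F {k Q : ℕ} (hQ : Q = Qn k) :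
    ((P - (eu k * Q / Den + 1) : ℕ) : ℝ) / P ≤ Fq 12 ((1 / 50 : ℝ) * k) := by
  subst hQ
  by_cases h : eu k * Qn k / Den + 1 ≤ P
  · rw [Nat.cast_sub h, Fq_eq, sub_div, div_self P_pos.ne', GG_eq]
    linarith [up_of k (Qn k)]
  · have : P - (eu k * Qn k / Den + 1) = 0 := Nat.sub_eq_zero_of_le (not_le.mp h).le
    rw [this]
    simp only [CharP.cast_eq_zero, zero_div]
    exact Fq_nonneg (nonneg_k k) 12

lemma glo_spec (k : ℕ) : (glo k : ℝ) / P ≤ gg 12 (Fq 12 ((1 / 50 : ℝ) * k)) := by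
  have hPpos : 0 < P := by unfold P; positivity
  have hFP : P - (eu k * Qn k / Den + 1) < P := Nat.sub_lt hPpos (Nat.succ_pos _)
  have h1 : (glo k : ℝ) / P ≤ gg 12 (((P - (eu k * Qn k / Den + 1) : ℕ) : ℝ) / P) :=
    gval_low (by norm_num) hFP
  exact h1.trans (gg_mono (by norm_num) (by have := P_pos; positivity) (le_F rfl))

lemma gg_le_one {d : ℕ} (hd : 0 < d) {x : ℝ} (h0 : 0 ≤ x) (h1 : x ≤ 1) : gg d x ≤ 1 := by
  unfold gg
  have := one_le_gs hd h0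
  rw [div_le_one (by linarith)]
  have : x ^ d ≤ 1 := pow_le_one₀ h0 h1
  linarith

lemma gup_spec (k : ℕ) : gg 1000 (Fq 12 ((1 / 50 : ℝ) * k)) ≤ (gup k : ℝ) / P := by
  have hF0 := Fq_nonneg (nonneg_k k) 12
  have hF1 := Fq_le_one (nonneg_k k) 12
  unfold gup
  split_ifs with h
  · rw [div_self P_pos.ne']
    exact gg_le_one (by norm_num) hF0 hF1
  · have hPpos : 0 < P := by unfold P; positivity
    have hFP : P - el k * Qn k / Den < P := Nat.sub_lt hPpos (Nat.pos_of_ne_zero h)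
    have h1 : gg 1000 (Fq 12 ((1 / 50 : ℝ) * k))
        ≤ gg 1000 (((P - el k * Qn k / Den : ℕ) : ℝ) / P) :=
      gg_mono (by norm_num) hF0 (F_le rfl)
    exact h1.trans (gval_up (by norm_num) hFP)

lemma sum_lo : (bsum tlo 10 0 : ℕ) = ∑ k ∈ range 893, glo k := by
  rw [bsum_eq]
  have h : (2 : ℕ) ^ 10 = 893 + 131 := by norm_num
  rw [h, Finset.sum_range_add]
  have h2 : ∑ x ∈ range 131, tlo (0 + (893 + x)) = 0 := by
    apply Finset.sum_eq_zero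
    intro x _
    unfold tlo
    rw [if_neg (by omega)]
  rw [h2, add_zero]
  apply Finset.sum_congr rfl
  intro x hx
  have := Finset.mem_range.mp hx
  unfold tlo
  rw [zero_add, if_pos this]

lemma sum_up : (bsum tup 11 0 : ℕ) = ∑ k ∈ range 1307, gup (k + 1) := by
  rw [bsum_eq]
  have h : (2 : ℕ) ^ 11 = 1307 + 741 := by norm_num
  rw [h, Finset.sum_range_add]
  have h2 : ∑ x ∈ range 741, tup (0 + (1307 + x)) = 0 := by
    apply Finset.sum_eq_zero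
    intro x _
    unfold tup
    rw [if_neg (by omega)]
  rw [h2, add_zero]
  apply Finset.sum_congr rfl
  intro x hx
  have := Finset.mem_range.mp hx
  unfold tup
  rw [zero_add, if_pos this]

theorem tau_low : (12 : ℝ) < tau 12 12 ((1 / 50 : ℝ) * (893 : ℕ)) := by
  rw [tau_eq (by norm_num) 12 (nonneg_k 893)]
  have h1 := riemann_left (d := 12) (by norm_num) 12 (h := 1 / 50) (by norm_num) 893
  have h2 : (∑ k ∈ range 893, (glo k : ℝ)) / P
      ≤ ∑ k ∈ range 893, gg 12 (Fq 12 ((1 / 50 : ℝ) * k)) := by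
    rw [Finset.sum_div]
    exact Finset.sum_le_sum fun k _ => glo_spec k
  have h3 : RR 12 ((1 / 50 : ℝ) * (893 : ℕ)) ≤ ((eu 893 * RQ 893 / Den + 1 : ℕ) : ℝ) / P := by
    rw [RR_eq]
    exact up_of 893 (RQ 893)
  have h4 : ((50 * (eu 893 * RQ 893 / Den + 1) : ℕ) : ℝ) < ((bsum tlo 10 0 : ℕ) : ℝ) := by
    exact_mod_cast check1
  rw [sum_lo, Nat.cast_mul, Nat.cast_sum] at h4
  have hP := P_pos
  generalize (eu 893 * RQ 893 / Den + 1) = X at h3 h4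
  have h5 : (X : ℝ) / P
      < 1 / 50 * ((∑ k ∈ range 893, (glo k : ℝ)) / P) := by
    rw [← mul_div_assoc]
    rw [div_lt_div_iff_of_pos_right hP]
    have h50 : ((50 : ℕ) : ℝ) = 50 := by norm_num
    rw [h50] at h4
    linarith
  push_cast at h1 h3 h5 ⊢
  linarith

theorem tau_up : tau 1000 12 ((1 / 50 : ℝ) * (1307 : ℕ)) < (12 : ℝ) := by
  rw [tau_eq (by norm_num) 12 (nonneg_k 1307)]
  have h1 := riemann_right (d := 1000) (by norm_num) 12 (h := 1 / 50) (by norm_num) 1307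
  have h2 : ∑ k ∈ range 1307, gg 1000 (Fq 12 ((1 / 50 : ℝ) * (k + 1 : ℕ)))
      ≤ (∑ k ∈ range 1307, (gup (k + 1) : ℝ)) / P := by
    rw [Finset.sum_div]
    exact Finset.sum_le_sum fun k _ => gup_spec (k + 1)
  have h3 : ((el 1307 * RQ 1307 / Den : ℕ) : ℝ) / P ≤ RR 12 ((1 / 50 : ℝ) * (1307 : ℕ)) := by
    rw [RR_eq]
    exact low_of 1307 (RQ 1307)
  have h4 : ((bsum tup 11 0 : ℕ) : ℝ) < ((50 * (el 1307 * RQ 1307 / Den) : ℕ) : ℝ) := by
    exact_mod_cast check2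
  rw [sum_up, Nat.cast_mul, Nat.cast_sum] at h4
  have hP := P_pos
  generalize (el 1307 * RQ 1307 / Den) = X at h3 h4
  have h5 : 1 / 50 * ((∑ k ∈ range 1307, (gup (k + 1) : ℝ)) / P)
      < (X : ℝ) / P := by
    rw [← mul_div_assoc]
    rw [div_lt_div_iff_of_pos_right hP]
    have h50 : ((50 : ℕ) : ℝ) = 50 := by norm_num
    rw [h50] at h4
    linarith
  have h6 : 1 / 50 * ∑ k ∈ range 1307, gg 1000 (Fq 12 ((1 / 50 : ℝ) * (k + 1 : ℕ)))
      ≤ 1 / 50 * ((∑ k ∈ range 1307, (gup (k + 1) : ℝ)) / P) := by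
    gcongr
  have h7 := h1.trans h6
  have h8 : ((12 : ℕ) : ℝ) = 12 := by norm_num
  rw [h8]
  linarith

theorem pow_lt : Fq 12 ((1 / 50 : ℝ) * (893 : ℕ)) ^ 12
    < Fq 12 ((1 / 50 : ℝ) * (1307 : ℕ)) ^ 1000 := by
  have hP := P_pos
  have h1 : Fq 12 ((1 / 50 : ℝ) * (893 : ℕ)) ^ 12
      ≤ (((P - el 893 * Qn 893 / Den : ℕ) : ℝ) / P) ^ 12 :=
    pow_le_pow_left₀ (Fq_nonneg (nonneg_k 893) 12) (F_le rfl) 12
  have h2 : (((P - (eu 1307 * Qn 1307 / Den + 1) : ℕ) : ℝ) / P) ^ 1000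
      ≤ Fq 12 ((1 / 50 : ℝ) * (1307 : ℕ)) ^ 1000 :=
    pow_le_pow_left₀ (div_nonneg (Nat.cast_nonneg _) hP.le) (le_F rfl) 1000
  refine h1.trans_lt (lt_of_lt_of_le ?_ h2)
  have h3 : (((P - el 893 * Qn 893 / Den) ^ 12 * P ^ 988 : ℕ) : ℝ)
      < (((P - (eu 1307 * Qn 1307 / Den + 1)) ^ 1000 : ℕ) : ℝ) := by
    exact_mod_cast check3
  rw [Nat.cast_mul, Nat.cast_pow, Nat.cast_pow, Nat.cast_pow] at h3
  rw [div_pow, div_pow, div_lt_div_iff₀ (pow_pos hP _) (pow_pos hP _)]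
  have e : (P : ℝ) ^ 1000 = (P : ℝ) ^ 988 * (P : ℝ) ^ 12 := by
    rw [← pow_add]
  rw [e, ← mul_assoc]
  exact mul_lt_mul_of_pos_right h3 (pow_pos hP _)

end Num

end Pool.Agent.R815.SD
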